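import Pool.Agent.Helper10.BLD.St

/-! THE BUILDER: splittings of the weights, assembly of `ST_BLD`. -/

set_option autoImplicit false

namespace Pool.Agent.Helper10.BLD

open Finset Filter Topology Pool.Agent.Helper69.RK Pool.Agent.Helper31.EC Pool.Agent.Helper31.EC.Sp
open Pool.Agent.Helper31.EC.QS Pool.Agent.Helper40.EL Pool.Agent.Helper89.LX Pool.Agent.Helper84.MT
open Pool.Agent.Helper36.AM Pool.Agent.Helper13.AM
open Pool.Agent.Helper37.DK2 (DKU)

noncomputable section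

/-- the coordinates of weight one are the first ones -/
theorem weight_one_iff {M D : ℕ} {w : Fin (M + 1) → ℝ} (hm : Monotone w) (h0 : w 0 = 1) (hd : nd1 w = D)
    (j : Fin (M + 1)) : w j = 1 ↔ j.val < D := by
  classical
  have hle : ∀ i : Fin (M + 1), 1 ≤ w i := fun i => h0 ▸ hm (Fin.zero_le i)
  have hcard : (univ.filter fun j => w j = 1).card = D := by
    rw [← hd]
    unfold nd1
    congr!
  constructor
  · intro hj
    have h1 : Finset.Iic j ⊆ univ.filter fun j => w j = 1 := by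
      intro i hi
      rw [Finset.mem_filter]
      refine ⟨mem_univ _, le_antisymm ?_ (hle i)⟩
      rw [← hj]
      exact hm (Finset.mem_Iic.mp hi)
    have h2 := Finset.card_le_card h1
    rw [hcard, Fin.card_Iic] at h2
    omega
  · intro hj
    by_contra hne
    have h1 : (univ.filter fun j => w j = 1) ⊆ Finset.Iio j := by
      intro i hi
      rw [Finset.mem_filter] at hi
      rw [Finset.mem_Iio]
      by_contra hc
      have h3 : w j ≤ w i := hm (not_lt.mp hc)
      rw [hi.2] at h3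
      exact hne (le_antisymm h3 (hle j))
    have h2 := Finset.card_le_card h1
    rw [hcard, Fin.card_Iio] at h2
    omega

/-- a splitting of the weights -/
theorem exists_spl {M d : ℕ} {w : Fin (M + 1) → ℝ} (hm : Monotone w) (h0 : w 0 = 1) (hl : 1 < w (Fin.last M))
    (hd : nd1 w = d + 1) : ∃ N, Nonempty (Spl w d N) := by
  have hle : ∀ i : Fin (M + 1), 1 ≤ w i := fun i => h0 ▸ hm (Fin.zero_le i)
  have hiff := weight_one_iff hm h0 hd
  have h1 : ¬ (M < d + 1) := fun h => by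
    have := (hiff (Fin.last M)).mpr (by rw [Fin.val_last]; exact h)
    linarith
  have h2 : d + 1 ≤ M := not_lt.mp h1
  refine ⟨M - d, ⟨⟨fun i => ⟨i.val, by omega⟩, fun j => ⟨d + 1 + j.val, by omega⟩, ?_, ?_, ?_, ?_, ?_, ?_,
    ⟨M - d - 1, by omega⟩, ?_⟩⟩⟩
  · intro i j hij
    exact Fin.mk_lt_mk.mpr hij
  · intro i j hij
    rw [Fin.mk_lt_mk]
    have : i.val < j.val := hij
    omega
  · intro i j
    rw [Fin.mk_lt_mk]
    omega
  · intro a
    by_cases ha : a.val < d + 1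
    · exact Or.inl ⟨⟨a.val, ha⟩, rfl⟩
    · refine Or.inr ⟨⟨a.val - (d + 1), by omega⟩, ?_⟩
      apply Fin.ext
      show d + 1 + (a.val - (d + 1)) = a.val
      omega
  · intro i
    exact (hiff _).mpr i.isLt
  · intro j
    refine lt_of_le_of_ne (hle _) fun h => ?_
    have h9 : d + 1 + j.val < d + 1 := (hiff ⟨d + 1 + j.val, by omega⟩).mp h.symm
    omega
  · apply Fin.ext
    show d + 1 + (M - d - 1) = M
    omega

/-- BLD from its rows -/
theorem st_bld {M : ℕ} (h1 : ST_AXP) (h2 : ST_LBK) (h3 : ST_TN) (h4 : ST_AXZ) (h5 : ST_VWP M) (h6 : ST_VWZ M)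
    (h7 : ST_VWT M) (hR : ST_R1 M) (hX : ST_EX M) (hA : ST_ADM M) (hP : ST_PRM M) (hN : ST_NRM M) (hY : ST_YYM M) :
    ST_BLD DKU M := by
  intro hst Cl g r w ρ TT hT hn hl hs
  obtain ⟨TT', hT', _, hR1⟩ := hR Cl g r w ρ TT hT
  obtain ⟨d, hd⟩ : ∃ d, nd1 w = d + 1 := ⟨nd1 w - 1, by omega⟩
  obtain ⟨N, ⟨P⟩⟩ := exists_spl hT.mono hT.one hl hd
  obtain ⟨r', T, c, hc, _⟩ := hX Cl g r w ρ TT' hT' hR1 d N P
  rw [hd] at hs
  exact ⟨d, N, r', P.w, P.z, ρ, CCo P ρ TT' r', by omega, cls_CCo h1 h2 h3 h4 h5 h6 h7 hT' P,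
    hA hst Cl g r w ρ TT' hT' hR1 d N r' P hs, hY hst Cl g r w ρ TT' hT' d N r' P (by omega),
    hP hst Cl g r w ρ TT' hT' d N r' P, hN Cl g r w ρ TT' hT' d N r' P, T, c, hc⟩

end

end Pool.Agent.Helper10.BLD
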