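import Pool.Agent.Helper10.BLD.St1
import Pool.Agent.Helper10.BLD.Asm

/-! THE BUILDER, one weight one: assembly of `ST_BLD1`. -/

set_option autoImplicit false

namespace Pool.Agent.Helper10.BLD

open Finset Filter Topology Pool.Agent.Helper69.RK Pool.Agent.Helper31.EC Pool.Agent.Helper31.EC.Sp
open Pool.Agent.Helper31.EC.QS Pool.Agent.Helper84.MT Pool.Agent.Helper36.AM Pool.Agent.Helper13.AM
open Pool.Agent.Helper37.DK2 (DKU)
open Pool.Agent.Helper5.DO (py py_coeff J1 Cls0 TilC fl T1 cls_til nr_til til_ne)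

noncomputable section

theorem top_of_ex {T : Sp} {d N r' : ℕ} {c : CD T d N r'} {w : Fin N → ℝ} (l : Fin N)
    (h0 : I (univ.sup fun x : Fin r' × Fin N × Fin (c.g + 1) => if w x.2.1 = ((x.2.2 : ℕ) : ℝ) then
      dg (c.cf x.1 x.2.1 x.2.2) 1 else ⊥) c.O ⊥ = 0) : Top c w l := by
  intro K hK
  refine I_zero_mono h0 (Finset.sup_le fun i _ => ?_) le_sup_left
  rw [py_coeff]
  split_ifs with h
  · have h1 := Finset.le_sup (f := fun x : Fin r' × Fin N × Fin (c.g + 1) => if w x.2.1 = ((x.2.2 : ℕ) : ℝ) then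
      dg (c.cf x.1 x.2.1 x.2.2) 1 else ⊥) (mem_univ (i, l, ⟨K, h⟩))
    simp only [hK, if_true] at h1
    exact h1.trans le_sup_left
  · exact (Kn T 1 le_rfl _).zero_mem

/-- BLD1 from its rows -/
theorem st_bld1 {CC : ∀ (M : ℕ), ℕ → MCl M} {M : ℕ} (hR : ST_R1 (M + 1)) (hX : ST_EX (M + 1)) (hC : ST_CL1 M)
    (hE : ST_EXC0 M) (hA : ST_AD1 M) (hP : ST_PR1 M) (hY : ST_YY1 CC M) : ST_BLD1 DKU CC M := by
  intro hst Cl g r w ρ TT hT hn hs
  obtain ⟨TT', hT', _, hR1⟩ := hR Cl g r w ρ TT hT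
  have hle : ∀ i : Fin (M + 2), 1 ≤ w i := fun i => hT.one ▸ hT.mono (Fin.zero_le i)
  have hiff := weight_one_iff hT.mono hT.one hn
  have hl : 1 < w (Fin.last (M + 1)) := by
    refine lt_of_le_of_ne (hle _) fun h => ?_
    have h1 := (hiff _).mp h.symm
    rw [Fin.val_last] at h1
    omega
  obtain ⟨N, ⟨P⟩⟩ := exists_spl (d := 0) hT.mono hT.one hl hn
  have hw1 : w 1 ≠ 1 := fun h => by
    have h1 := (hiff _).mp h
    exact absurd h1 (by simp)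
  obtain ⟨l, hPl⟩ : ∃ l, P.vI l = 1 := by
    rcases P.cov 1 with ⟨i, hi⟩ | h
    · exact absurd (hi ▸ P.wb i) hw1
    · exact h
  have hlow : ∀ j, P.w l ≤ P.w j := by
    intro j
    show w (P.vI l) ≤ w (P.vI j)
    rw [hPl]
    apply hT.mono
    rw [Fin.le_def]
    have h1 : P.vI j ≠ 0 := fun h => by
      have h2 := P.wv j
      rw [h, hT.one] at h2
      exact lt_irrefl _ h2
    have h2 : (P.vI j).val ≠ 0 := fun h => h1 (Fin.ext h)
    show (1 : Fin (M + 2)).val ≤ _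
    simp only [Fin.val_one]
    omega
  obtain ⟨r', T, c, hc, hc1⟩ := hX Cl g r w ρ TT' hT' hR1 0 N P
  obtain ⟨K, hK, hwK, hcl, T', c', O', hc'⟩ := hC g r Cl w ρ TT' hst hT' hR1 hn N P l hlow r' T c ⟨hc, top_of_ex l hc1⟩
  have hx : Ctx M g r Cl w ρ TT' N r' P l K := ⟨hst, hT', hR1, hn, hs, hPl, hlow, hK, hwK, hcl⟩
  have h0 := hcl.cls0 (hE g r Cl w ρ TT' N r' P l K hx)
  refine ⟨K, hK, ?_, fun hcc => ?_⟩
  · rw [← hwK, ← hPl]
    rfl
  · obtain ⟨T2, c2, hc2⟩ := til_ne h0 hc'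
    exact ⟨1, N, r', P.w, P.z, ρ + 1 / P.w P.z, TilC P.w P.z l K (C1 P ρ TT' r' l), le_rfl, cls_til h0,
      hA g r Cl w ρ TT' N r' P l K hx h0, hY g r Cl w ρ TT' N r' P l K hx h0 hcc,
      hP g r Cl w ρ TT' N r' P l K hx h0, nr_til h0, T2, c2, hc2⟩

end

end Pool.Agent.Helper10.BLD
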