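import Pool.Agent.Helper10.BLD.Jt

/-! THE BUILDER, one weight one: closure of the class `C1`. -/

set_option autoImplicit false

namespace Pool.Agent.Helper10.BLD

open Finset Filter Topology Pool.Agent.Helper69.RK Pool.Agent.Helper31.EC Pool.Agent.Helper31.EC.Sp
open Pool.Agent.Helper31.EC.QS Pool.Agent.Helper84.MT Pool.Agent.Helper36.AM Pool.Agent.Helper13.AM
open Pool.Agent.Helper38.NS (dp dP dL dL_le)

noncomputable section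

section

variable {M g r N r' : ℕ} {w : Fin (M + 1) → ℝ} {ρ : ℝ} {Cl : MCl (M + 1)}
  {TT : ∀ S : Sp, MSys S (M + 1) (lin g) (Fin r) → Prop} {P : Spl w 0 N} {l : Fin N}
  (hA : ST_AXP) (hLB : ST_LBK) (hTN : ST_TN) (hZ : ST_AXZ) (hV : ST_VWP M) (hW : ST_VWZ M) (hVT : ST_VWT M)
  (hT : Hom M Cl g r w ρ TT)

include hLB hTN hVT hT in
theorem ct_ax {T : Sp} {c : CD T 0 N r'} (h : CT P ρ TT r' l T c) : c.Ax P.w P.z ρ := by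
  have a := h.cc.ax0
  exact ⟨a.w1, a.wz, a.rho0, a.rho1, a.ln, a.bx,
    hTN _ _ _ _ _ _ _ _ a (hVT Cl g r w ρ TT hT 0 N r' P T c h.cc), hLB _ _ _ _ _ _ _ _ a⟩

include hA hV hT in
theorem ct_pull {T : Sp} {c : CD T 0 N r'} (h : CT P ρ TT r' l T c) {W : Sp} (p : Pj W T) :
    CT P ρ TT r' l W (c.pull p) :=
  ⟨⟨(hA _ _ _ _ _ _ _ _ h.cc.ax0).1 W p, (hV Cl g r w ρ TT hT 0 N r' P T c h.cc).1 W p⟩, top_pull p h.top⟩

include hA hV hT in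
theorem ct_rest {T : Sp} {c : CD T 0 N r'} (h : CT P ρ TT r' l T c) (E : ∀ k, (T.F k).Ω → Prop)
    (hE : 0 < ul (T.pr E)) : CT P ρ TT r' l (T.rest E) (c.rest E hE) :=
  ⟨⟨(hA _ _ _ _ _ _ _ _ h.cc.ax0).2 E hE, (hV Cl g r w ρ TT hT 0 N r' P T c h.cc).2 E hE⟩, top_rest E hE h.top⟩

include hLB hTN hZ hW hVT hT in
theorem ct_zoom (low : ∀ j, P.w l ≤ P.w j) {T : Sp} {c : CD T 0 N r'} (h : CT P ρ TT r' l T c) {s e : ℝ} (he : 0 < e)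
    (h1 : e ≤ 1) (hs0 : 0 ≤ s) (hse : P.w P.z * s + e ≤ 1) {Z : ∀ k, Setoid (T.F k).Ω}
    (hZ1 : ∀ k, Z k = Setoid.ker (c.VK s k)) :
    ∃ c' : CD (T.chg Z e he) 0 N r', ZRs c P.w P.z s e he h1 Z c' ∧ CT P ρ TT r' l _ c' := by
  have Ax := ct_ax hLB hTN hVT hT h
  obtain ⟨c', a, b⟩ := hZ _ _ _ _ _ _ _ _ h.cc.ax0 Ax.num s e he h1 hs0 hse Z hZ1
  have hcc : CCo P ρ TT r' _ c' := ⟨b, hW Cl g r w ρ TT hT 0 N r' P T c h.cc s e he h1 hs0 hse Z hZ1 c' a.zr b⟩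
  have Ax' : c'.Ax P.w P.z ρ := ⟨b.w1, b.wz, b.rho0, b.rho1, b.ln, b.bx,
    hTN _ _ _ _ _ _ _ _ b (hVT Cl g r w ρ TT hT 0 N r' P _ c' hcc), hLB _ _ _ _ _ _ _ _ b⟩
  exact ⟨c', a, hcc, top_zoom Ax h.cc.ax0.wd low he h1 hs0 hse a.zr Ax' h.top⟩

include hA hV hT in
theorem c1_pull {T : Sp} {c : CD T 0 N r'} {O : T.L} (h : C1 P ρ TT r' l T c O) {W : Sp} (p : Pj W T) :
    C1 P ρ TT r' l W (c.pull p) (p.map O) := by
  obtain ⟨h0, h1, cb, h2, h3, h4, rfl⟩ := h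
  refine ⟨h0, h1, cb.pull (dP _ h0 p), ct_pull hA hV hT h2 p, ct_pull hA hV hT h3 (dP _ h0 p), trc_pull h4 p, ?_⟩
  rw [CD.pull_O, dP_uL]

include hA hV hT in
theorem c1_rest {T : Sp} {c : CD T 0 N r'} {O : T.L} (h : C1 P ρ TT r' l T c O) (E : ∀ k, (T.F k).Ω → Prop)
    (hE : 0 < ul (T.pr E)) : C1 P ρ TT r' l (T.rest E) (c.rest E hE) (restL E hE O) := by
  obtain ⟨h0, h1, cb, h2, h3, h4, rfl⟩ := h
  refine ⟨h0, h1, cb.rest (S := dp T _ h0) E hE, ct_rest hA hV hT h2 E hE,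
    ct_rest (T := dp T _ h0) hA hV hT h3 E hE, trc_rest h4 E hE, ?_⟩
  have e1 : (cb.rest (S := dp T (P.w P.z) h0) E hE).O = restL (S := dp T (P.w P.z) h0) E hE cb.O :=
    CD.rest_O (S := dp T (P.w P.z) h0) E hE
  refine Eq.trans (uL_rest _ h0 E hE cb.O).symm ?_
  exact congrArg (uL (S := T.rest E) (P.w P.z) h0) e1.symm

include hA hLB hTN hZ hV hW hVT hT in
theorem c1_zoom (low : ∀ j, P.w l ≤ P.w j) {T : Sp} {c : CD T 0 N r'} {O : T.L} (h : C1 P ρ TT r' l T c O) {s e : ℝ}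
    (he : 0 < e) (he1 : e ≤ 1) (hs0 : 0 ≤ s) (hse : P.w P.z * s + e ≤ 1) {Z : ∀ k, Setoid (T.F k).Ω}
    (hZ1 : ∀ k, Z k = Setoid.ker (c.VK s k)) :
    ∃ (c' : CD (T.chg Z e he) 0 N r') (O' : (T.chg Z e he).L), c.ZR P.w P.z s e he he1 Z c' ∧
      C1 P ρ TT r' l _ c' O' := by
  obtain ⟨h0, h1, cb, h2, h3, h4, rfl⟩ := h
  have Ax := ct_ax hLB hTN hVT hT h2
  have Ab := ct_ax hLB hTN hVT hT h3
  have hzs : P.w P.z * s ≤ 1 := by linarith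
  have hse' : P.w P.z * (s / P.w P.z) + e ≤ 1 := by
    rw [mul_div_cancel₀ _ h0.ne']
    nlinarith
  obtain ⟨c', hc1, hc2⟩ := ct_zoom hLB hTN hZ hW hVT hT low h2 he he1 hs0 hse hZ1
  obtain ⟨cb', hb1, hb2⟩ := ct_zoom hLB hTN hZ hW hVT hT low h3 he he1 (div_nonneg hs0 h0.le) hse'
    (Z := fun k => Setoid.ker (cb.VK (s / P.w P.z) k)) (fun _ => rfl)
  have hZZ : ∀ k ω ω', (T.F k).μ ω ≠ 0 → (T.F k).μ ω' ≠ 0 → (T.F k).Z ω ω' →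
      (Z k ω ω' ↔ Setoid.ker (cb.VK (s / P.w P.z) k) ω ω') := by
    intro k ω ω' a b d
    rw [hZ1 k]
    exact h4.VK s hs0 hzs k ω ω' a b d
  refine ⟨c', uL (S := T.chg Z e he) _ h0 (cb'.pull (idz (P.w P.z) h0 e he hZZ)).O, hc1.zr, h0, h1,
    cb'.pull (idz (P.w P.z) h0 e he hZZ), hc2, ct_pull hA hV hT hb2 _, ?_, rfl⟩
  exact trc_zoom (Z := Z) (Zb := fun k => Setoid.ker (cb.VK (s / P.w P.z) k)) h4 Ax Ab hs0 hse hZZ hc1 hb1 (ct_ax hLB hTN hVT hT hc2) (ct_ax hLB hTN hVT hT hb2)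

include hA hLB hTN hZ hV hW hVT hT in
theorem c1_ne (low : ∀ j, P.w l ≤ P.w j) {T : Sp} {c : CD T 0 N r'} (h : CT P ρ TT r' l T c) :
    ∃ (T : Sp) (c : CD T 0 N r') (O : T.L), C1 P ρ TT r' l T c O := by
  have Ax := ct_ax hLB hTN hVT hT h
  have h1' := Ax.w1 P.z
  have h0 : 0 < P.w P.z := by linarith
  have h1 : 1 ≤ P.w P.z := h1'.le
  have he : 0 < 1 / P.w P.z := by positivity
  have he1 : 1 / P.w P.z ≤ 1 := by rw [div_le_one h0]; exact h1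
  obtain ⟨c', hc1, hc2⟩ := ct_zoom hLB hTN hZ hW hVT hT low h he he1 le_rfl (by rw [mul_zero, zero_add]; exact he1)
    (Z := fun k => Setoid.ker (c.VK 0 k)) (fun _ => rfl)
  have hZZ : ∀ k ω ω', (T.F k).μ ω ≠ 0 → (T.F k).μ ω' ≠ 0 → (T.F k).Z ω ω' → Setoid.ker (c.VK 0 k) ω ω' :=
    fun k ω ω' a b d => Ax.bx.zero k ω ω' a b d
  refine ⟨_, c', _, h0, h1, c.pull (idt (P.w P.z) h0 he hZZ), hc2, ct_pull hA hV hT h _, ?_, rfl⟩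
  exact trc_init Ax hc1 (ct_ax hLB hTN hVT hT hc2) hZZ

end

end

end Pool.Agent.Helper10.BLD
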