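import Pool.Agent.Helper10.BLD.C1

/-! THE BUILDER, one weight one: assembly of `ST_CL1`. -/

set_option autoImplicit false

namespace Pool.Agent.Helper10.BLD

open Finset Filter Topology Pool.Agent.Helper69.RK Pool.Agent.Helper31.EC Pool.Agent.Helper31.EC.Sp
open Pool.Agent.Helper31.EC.QS Pool.Agent.Helper84.MT Pool.Agent.Helper36.AM Pool.Agent.Helper13.AM
open Pool.Agent.Helper38.NS (dp dP dL dL_le)
open Pool.Agent.Helper5.DO (J1 fu)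
open Pool.Agent.Helper10.JET (tc)
open Pool.Agent.Helper40.EL (Lab Nul rp)

noncomputable section

/-- [KNAT] -/
def ST_KNAT : Prop := ∀ (S : Sp) (N r : ℕ) (c : CD S 0 N r) (w : Fin N → ℝ) (z l : Fin N) (ρ : ℝ), c.Ax w z ρ →
  Wd c w → (∀ j, w l ≤ w j) → (∀ (D : ℕ) (κ : ℝ), 0 < κ → κ ≤ 1 → Helper5.DO.NR D c.pt ⊥ κ) →
    ∃ K : ℕ, 2 ≤ K ∧ w l = K

theorem st_cl1_of {M : ℕ} (hA : ST_AXP) (hLB : ST_LBK) (hTN : ST_TN) (hZ : ST_AXZ) (hV : ST_VWP (M + 1))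
    (hW : ST_VWZ (M + 1)) (hVT : ST_VWT (M + 1)) (hN : ST_NRM (M + 1)) (hK : ST_KNAT)
    (hJ : ∀ (Cl : MCl (M + 2)) (g r : ℕ) (w : Fin (M + 2) → ℝ) (ρ : ℝ) TT, Hom (M + 1) Cl g r w ρ TT →
      ∀ (N r' : ℕ) (P : Spl w 0 N) (l : Fin N) (K : ℕ), 2 ≤ K → P.w l = K → (∀ j, P.w l ≤ P.w j) →
      ∀ (T : Sp) (c : CD T 0 N r') (h0 : 0 < P.w P.z) (h1 : 1 ≤ P.w P.z) (cb : CD (dp T (P.w P.z) h0) 0 N r'),
        CT P ρ TT r' l T c → CT P ρ TT r' l _ cb → Trc h0 h1 c cb → J1 c (uL _ h0 cb.O) P.w P.z l K) :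
    ST_CL1 M := by
  intro g r Cl w ρ TT _ hT _ _ N P l low r' T c hc
  have Ax := ct_ax hLB hTN hVT hT hc
  have hnr : ∀ (T : Sp) (c : CD T 0 N r'), CCo P ρ TT r' T c → ∀ (D : ℕ) (κ : ℝ), 0 < κ → κ ≤ 1 →
      Helper5.DO.NR D c.pt ⊥ κ := fun T c h => hN Cl g r w ρ TT hT 0 N r' P T c h
  obtain ⟨K, hK2, wl⟩ := hK T N r' c P.w P.z l ρ Ax hc.cc.ax0.wd low (hnr T c hc.cc)
  refine ⟨K, hK2, wl, ⟨?_, ?_, ?_, ?_, ?_, ?_⟩, c1_ne hA hLB hTN hZ hV hW hVT hT low hc⟩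
  · rintro S c O ⟨h0, h1, cb, h2, h3, h4, rfl⟩
    exact ct_ax hLB hTN hVT hT h2
  · rintro S c O ⟨h0, h1, cb, h2, h3, h4, rfl⟩
    exact hJ Cl g r w ρ TT hT N r' P l K hK2 wl low S c h0 h1 cb h2 h3 h4
  · exact fun S c O h T p => c1_pull hA hV hT h p
  · exact fun S c O h E hE => c1_rest hA hV hT h E hE
  · exact fun S c O h s e he h1 hs0 hse Z hZ1 => c1_zoom hA hLB hTN hZ hV hW hVT hT low h he h1 hs0 hse hZ1
  · rintro S c O ⟨h0, h1, cb, h2, h3, h4, rfl⟩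
    exact hnr S c h2.cc

end

end Pool.Agent.Helper10.BLD
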