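import Pool.Agent.Helper38.NS.Dep
import Pool.Agent.Helper57.TA.Alg
import Pool.Agent.Helper31.EC.Uns

/-! Exact entropy calculus: the space of a larger depth `κ ≥ 1` (`dp`); informations and functions of this space as
informations and functions of the original space (`uL`, `uQ`). -/

set_option autoImplicit false

namespace Pool.Agent.Helper10.BLD

open Finset Filter Topology Pool.Agent.Helper69.RK Pool.Agent.Helper31.EC Pool.Agent.Helper31.EC.Sp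
open Pool.Agent.Helper31.EC.QS Pool.Agent.Helper38.NS
open Pool.Agent.Helper57.TA (sc scT rcst)

noncomputable section

section

variable {S : Sp} (κ : ℝ) (h0 : 0 < κ)

theorem un_VB {A : ∀ k, Setoid (S.F k).Ω} (hA : (dp S κ h0).VB A) : S.VB A := by
  obtain ⟨C, hC⟩ := hA
  refine ⟨C * κ, ?_⟩
  filter_upwards [hC] with k hk ω hω
  have h1 : C * κ * (S.F k).n = C * ((dp S κ h0).F k).n := by
    show _ = C * (κ * (S.F k).n)
    ring
  rw [h1]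
  refine le_trans ?_ (hk ω hω)
  have h2 : nv (S.F k) (A k) ω ≤ nv ((dp S κ h0).F k) (A k) ω := by
    classical
    show nvf (S.F k).μ (Quotient.mk (A k)) (Quotient.mk (S.F k).Z) ω ≤
      nvf (S.F k).μ (Quotient.mk (A k)) (Quotient.mk (S.tr k ⊓ (S.F k).Z)) ω
    exact nvf_le_of_rel _ _ _ _ _ (fun ω' _ h => Quotient.sound
      ⟨trivial, (Quotient.exact h : (S.F k).Z ω' ω)⟩)
  exact_mod_cast h2

theorem dL_surj (y : (dp S κ h0).L) : ∃ x : S.L, dL κ h0 x = y := by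
  induction y using cl_ind with | _ A
  exact ⟨cl ⟨A.1, un_VB κ h0 A.2⟩, rfl⟩

/-- informations of the deep space -/
def uL (y : (dp S κ h0).L) : S.L := (dL_surj κ h0 y).choose

theorem dL_uL (y : (dp S κ h0).L) : dL κ h0 (uL κ h0 y) = y := (dL_surj κ h0 y).choose_spec

theorem uL_dL (x : S.L) : uL κ h0 (dL κ h0 x) = x := dL_inj κ h0 (dL_uL κ h0 _)

theorem uL_eq {x : S.L} {y : (dp S κ h0).L} (h : dL κ h0 x = y) : uL κ h0 y = x := by
  rw [← h, uL_dL]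

theorem uL_le {x y : (dp S κ h0).L} : uL κ h0 x ≤ uL κ h0 y ↔ x ≤ y := by
  rw [← dL_le κ h0, dL_uL, dL_uL]

theorem uL_mono {x y : (dp S κ h0).L} (h : x ≤ y) : uL κ h0 x ≤ uL κ h0 y := (uL_le κ h0).mpr h

theorem le_uL {x : S.L} {y : (dp S κ h0).L} : x ≤ uL κ h0 y ↔ dL κ h0 x ≤ y := by
  rw [← dL_le κ h0, dL_uL]

theorem uL_sup (x y : (dp S κ h0).L) : uL κ h0 (x ⊔ y) = uL κ h0 x ⊔ uL κ h0 y := by
  apply uL_eq
  rw [dL_sup, dL_uL, dL_uL]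

theorem uL_bot : uL κ h0 (⊥ : (dp S κ h0).L) = ⊥ := uL_eq κ h0 (dL_bot κ h0)

theorem uL_finsup {ι : Type*} (s : Finset ι) (f : ι → (dp S κ h0).L) :
    uL κ h0 (s.sup f) = s.sup fun i => uL κ h0 (f i) := by
  apply uL_eq
  rw [dL_finsup]
  exact Finset.sup_congr rfl fun i _ => dL_uL κ h0 _

theorem uL_h (x y : (dp S κ h0).L) : Helper31.EC.h (uL κ h0 x) (uL κ h0 y) = κ * Helper31.EC.h x y := by
  have h1 := dL_h κ h0 (uL κ h0 x) (uL κ h0 y)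
  rw [dL_uL, dL_uL] at h1
  rw [h1]
  field_simp

theorem uL_I (x y z : (dp S κ h0).L) : I (uL κ h0 x) (uL κ h0 y) (uL κ h0 z) = κ * I x y z := by
  have h1 := dL_I κ h0 (uL κ h0 x) (uL κ h0 y) (uL κ h0 z)
  rw [dL_uL, dL_uL, dL_uL] at h1
  rw [h1]
  field_simp

theorem uL_io {α : ℕ → Type} {X : ∀ k, (S.F k).Ω → α k} (hX : Bdd X) : uL κ h0 (io (S := dp S κ h0) X) = io X := by
  apply uL_eq
  exact chgL_io S.tr κ h0 hX

/-- tame functions of the deep space -/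
def uT : TR (dp S κ h0) →+* TR S where
  toFun f := ⟨f.1, by
    obtain ⟨K, hK, h⟩ := f.2
    exact ⟨K, dp_sub' κ h0 hK, h⟩⟩
  map_one' := rfl
  map_mul' _ _ := rfl
  map_zero' := rfl
  map_add' _ _ := rfl

theorem tdp_uT (f : TR (dp S κ h0)) : tdp κ h0 (uT κ h0 f) = f := rfl

theorem uT_tdp (f : TR S) : uT κ h0 (tdp κ h0 f) = f := rfl

theorem uT_ag {f g : TR (dp S κ h0)} {r : ℝ} : TR.Ag r (uT κ h0 f) (uT κ h0 g) ↔ TR.Ag (r / κ) f g := by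
  have h1 := tdp_ag κ h0 (f := uT κ h0 f) (g := uT κ h0 g) (r := r / κ)
  rw [mul_div_cancel₀ _ h0.ne'] at h1
  exact h1.symm

theorem uT_dg (f : TR (dp S κ h0)) (r : ℝ) : TR.dg (uT κ h0 f) r = uL κ h0 (TR.dg f (r / κ)) := by
  symm
  apply uL_eq
  have h1 := tdp_dg κ h0 (uT κ h0 f) (r / κ)
  rw [mul_div_cancel₀ _ h0.ne', tdp_uT] at h1
  exact h1.symm

variable (h1 : 1 ≤ κ)

include h1 in
theorem div_le_one_of {r : ℝ} (hr : r ≤ 1) : r / κ ≤ 1 := by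
  rw [div_le_one (zero_lt_one.trans_le h1)]
  exact hr.trans h1

/-- functions of the deep space, to the resolution of the original space -/
def uQ : QS (dp S κ h0) →+* QS S :=
  Ideal.Quotient.lift (TR.Idl (dp S κ h0)) (QS.mk.comp (uT κ h0)) (by
    intro f hf
    have h2 : TR.Ag 1 f 0 := hf
    have h3 : TR.Ag 1 (uT κ h0 f) (uT κ h0 0) := by
      rw [uT_ag]
      exact h2.anti (div_le_one_of κ h1 le_rfl)
    rw [map_zero] at h3
    show QS.mk (uT κ h0 f) = 0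
    rw [← map_zero QS.mk]
    exact QS.mk_eq.mpr h3)

theorem uQ_mk (f : TR (dp S κ h0)) : uQ κ h0 h1 (QS.mk f) = QS.mk (uT κ h0 f) := rfl

theorem uQ_surj (f : QS S) : ∃ g, uQ κ h0 h1 g = f := by
  obtain ⟨f, rfl⟩ := mk_surj f
  exact ⟨QS.mk (tdp κ h0 f), rfl⟩

theorem uQ_dg (f : QS (dp S κ h0)) {r : ℝ} (hr : r ≤ 1) : dg (uQ κ h0 h1 f) r = uL κ h0 (dg f (r / κ)) := by
  obtain ⟨f, rfl⟩ := mk_surj f
  rw [uQ_mk, dg_mk _ hr, dg_mk _ (div_le_one_of κ h1 hr), uT_dg]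

theorem uQ_vd {ι : Type} [Fintype ι] (f : ι → QS (dp S κ h0)) {r : ℝ} (hr : r ≤ 1) :
    vd (fun i => uQ κ h0 h1 (f i)) r = uL κ h0 (vd f (r / κ)) := by
  unfold vd
  rw [uL_finsup]
  congr 1
  funext i
  exact uQ_dg κ h0 h1 (f i) hr

theorem uQ_mem {f : QS (dp S κ h0)} {r : ℝ} (hr : r ≤ 1) : uQ κ h0 h1 f ∈ Id S r ↔ f ∈ Id (dp S κ h0) (r / κ) := by
  obtain ⟨f, rfl⟩ := mk_surj f
  rw [uQ_mk, mk_mem_Id hr, mk_mem_Id (div_le_one_of κ h1 hr), ← uT_ag κ h0, map_zero]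

theorem uQ_eq_zero {f : QS (dp S κ h0)} : uQ κ h0 h1 f = 0 ↔ f ∈ Id (dp S κ h0) (1 / κ) := by
  rw [← mem_Id_one, uQ_mem κ h0 h1 le_rfl]

theorem uQ_eq {f g : QS (dp S κ h0)} : uQ κ h0 h1 f = uQ κ h0 h1 g ↔ f - g ∈ Id (dp S κ h0) (1 / κ) := by
  rw [← sub_eq_zero, ← map_sub, uQ_eq_zero]

theorem uQ_sc (u : ℝ) : uQ κ h0 h1 (sc (dp S κ h0) u) = sc S (κ * u) := by
  show QS.mk _ = QS.mk _
  congr 1
  apply Subtype.ext
  funext k ω
  show (dp S κ h0).dl (max u 0) k = S.dl (max (κ * u) 0) k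
  rw [dp_dl, mul_max_of_nonneg _ _ h0.le, mul_zero]

theorem uQ_rcst (a : ℝ) : uQ κ h0 h1 (rcst (dp S κ h0) a) = rcst S a := rfl

end

section

variable {S T : Sp} (κ : ℝ) (h0 : 0 < κ) (h1 : 1 ≤ κ)

theorem dP_uL (p : Pj T S) (y : (dp S κ h0).L) : uL κ h0 ((dP κ h0 p).map y) = p.map (uL κ h0 y) := by
  apply uL_eq
  rw [← dP_map, dL_uL]

theorem dP_uQ (p : Pj T S) (f : QS (dp S κ h0)) : uQ κ h0 h1 ((dP κ h0 p).qs f) = p.qs (uQ κ h0 h1 f) := by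
  obtain ⟨f, rfl⟩ := mk_surj f
  rfl

end

section

variable {S : Sp} (κ : ℝ) (h0 : 0 < κ) (h1 : 1 ≤ κ) (E : ∀ k, (S.F k).Ω → Prop) (hE : 0 < ul (S.pr E))

theorem dL_rest (x : S.L) : restL (S := dp S κ h0) E hE (dL κ h0 x) = dL (S := S.rest E) κ h0 (restL E hE x) := by
  induction x using cl_ind
  rfl

theorem uL_rest (y : (dp S κ h0).L) :
    uL (S := S.rest E) κ h0 (restL (S := dp S κ h0) E hE y) = restL E hE (uL κ h0 y) := by
  apply uL_eq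
  rw [← dL_rest, dL_uL]

theorem uQ_rest (f : QS (dp S κ h0)) :
    uQ (S := S.rest E) κ h0 h1 (QS.rest (S := dp S κ h0) E hE f) = QS.rest E hE (uQ κ h0 h1 f) := by
  obtain ⟨f, rfl⟩ := mk_surj f
  rfl

end

end

end Pool.Agent.Helper10.BLD
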