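import Pool.Agent.Helper10.BLD.St
import Pool.Agent.Helper10.BLD.U
import Pool.Agent.Helper5.DO.TilC

/-! THE BUILDER, one weight one (`d = 0`): the class `C1` of corners with the digits of the point beyond the resolution,
frozen statements. -/

set_option autoImplicit false

namespace Pool.Agent.Helper10.BLD

open Finset Filter Topology Pool.Agent.Helper69.RK Pool.Agent.Helper31.EC Pool.Agent.Helper31.EC.Sp
open Pool.Agent.Helper31.EC.QS Pool.Agent.Helper84.MT Pool.Agent.Helper36.AM Pool.Agent.Helper13.AM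
open Pool.Agent.Helper38.NS (dp)
open Pool.Agent.Helper37.DK2 (DKU)
open Pool.Agent.Helper5.DO (py J1 Cls0 TilC fl T1)

noncomputable section

/-- the top coefficients of the curves in the coordinate `l` are jointly independent of the point -/
def Top {S : Sp} {d N r : ℕ} (c : CD S d N r) (w : Fin N → ℝ) (l : Fin N) : Prop := ∀ K : ℕ, w l = K →
  I (univ.sup fun i => dg ((py (c.cf i l)).coeff K) 1) c.O ⊥ = 0

section

variable {M g r N r' : ℕ} {w : Fin (M + 1) → ℝ}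

/-- corners of `CCo` with independent top coefficients -/
structure CT {d : ℕ} (P : Spl w d N) (ρ : ℝ) (TT : ∀ S : Sp, MSys S (M + 1) (lin g) (Fin r) → Prop) (r' : ℕ)
    (l : Fin N) (T : Sp) (c : CD T d N r') : Prop where
  cc : CCo P ρ TT r' T c
  top : Top c P.w l

/-- `c` is the restriction to the resolution of `T` of the corner `cb` over the deep space (unit `κ n`) -/
structure Trc {T : Sp} {κ : ℝ} (h0 : 0 < κ) (h1 : 1 ≤ κ) (c : CD T 0 N r') (cb : CD (dp T κ h0) 0 N r') : Prop where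
  q : ∀ i, c.q i = uQ κ h0 h1 (cb.q i)
  R : ∀ j, c.R j = uQ κ h0 h1 (cb.R j)
  cf : ∀ i j, py (c.cf i j) = (py (cb.cf i j)).map (uQ κ h0 h1)
  q0 : ∀ s, 0 ≤ s → κ * s ≤ 1 → ∀ i, c.q0 s i = uQ κ h0 h1 (cb.q0 (s / κ) i)
  γ : ∀ s, 0 ≤ s → κ * s ≤ 1 → ∀ j, c.γ s j = uQ κ h0 h1 (cb.γ (s / κ) j)
  VK : ∀ s, 0 ≤ s → κ * s ≤ 1 → ∀ k ω ω', (T.F k).μ ω ≠ 0 → (T.F k).μ ω' ≠ 0 → (T.F k).Z ω ω' →
    (c.VK s k ω = c.VK s k ω' ↔ cb.VK (s / κ) k ω = cb.VK (s / κ) k ω')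

/-- the class of corners with one unit direction; `O` = the point of the deep corner -/
def C1 (P : Spl w 0 N) (ρ : ℝ) (TT : ∀ S : Sp, MSys S (M + 1) (lin g) (Fin r) → Prop) (r' : ℕ) (l : Fin N) (T : Sp)
    (c : CD T 0 N r') (O : T.L) : Prop :=
  ∃ (h0 : 0 < P.w P.z) (h1 : 1 ≤ P.w P.z) (cb : CD (dp T (P.w P.z) h0) 0 N r'),
    CT P ρ TT r' l T c ∧ CT P ρ TT r' l (dp T (P.w P.z) h0) cb ∧ Trc h0 h1 c cb ∧ O = uL _ h0 cb.O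

end

/-- `Cls0` without `exc0` -/
structure Cl1 (N r : ℕ) (w : Fin N → ℝ) (z l : Fin N) (K : ℕ) (ρ : ℝ) (C : ∀ S : Sp, CD S 0 N r → S.L → Prop) :
    Prop where
  ax : ∀ S c O, C S c O → c.Ax w z ρ
  j1 : ∀ S c O, C S c O → J1 c O w z l K
  pull : ∀ S c O, C S c O → ∀ (T : Sp) (p : Pj T S), C T (c.pull p) (p.map O)
  rest : ∀ S c O, C S c O → ∀ (E : ∀ k, (S.F k).Ω → Prop) (hE : 0 < ul (S.pr E)),
    C (S.rest E) (c.rest E hE) (restL E hE O)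
  zoom : ∀ S c O, C S c O → ∀ (s e : ℝ) (he : 0 < e) (h1 : e ≤ 1), 0 ≤ s → w z * s + e ≤ 1 →
    ∀ Z : ∀ k, Setoid (S.F k).Ω, (∀ k, Z k = Setoid.ker (c.VK s k)) →
      ∃ (c' : CD (S.chg Z e he) 0 N r) (O' : (S.chg Z e he).L), c.ZR w z s e he h1 Z c' ∧ C _ c' O'
  nr : ∀ S c O, C S c O → ∀ (D : ℕ) (κ : ℝ), 0 < κ → κ ≤ 1 → Helper5.DO.NR D c.pt ⊥ κ

theorem Cl1.cls0 {N r : ℕ} {w : Fin N → ℝ} {z l : Fin N} {K : ℕ} {ρ : ℝ} {C : ∀ S : Sp, CD S 0 N r → S.L → Prop}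
    (h : Cl1 N r w z l K ρ C) (h2 : ∀ S c O, C S c O → ∀ i, 1 ≤ Helper31.EC.h (dg (fl c l K i) 1) (T1 c z)) :
    Cls0 N r w z l K ρ C :=
  ⟨h.ax, h.j1, h.pull, h.rest, h.zoom, h.nr, h2⟩

/-- THE CONTEXT of the rows for `d = 0`: everything that is known -/
structure Ctx (M g r : ℕ) (Cl : MCl (M + 2)) (w : Fin (M + 2) → ℝ) (ρ : ℝ)
    (TT : ∀ S : Sp, MSys S (M + 2) (lin g) (Fin r) → Prop) (N r' : ℕ) (P : Spl w 0 N) (l : Fin N) (K : ℕ) : Prop where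
  st : ∀ m, m < M + 2 → ST m
  hom : Hom (M + 1) Cl g r w ρ TT
  r1 : ∀ S s, TT S s → R1 w s
  nd : nd1 w = 1
  dk : STO (M + 2) (DKU (M + 2) 2)
  hl : P.vI l = 1
  low : ∀ j, P.w l ≤ P.w j
  hK : 2 ≤ K
  wl : P.w l = K
  cls : Cl1 N r' P.w P.z l K ρ (C1 P ρ TT r' l)

/-- [EXC0] the new base coordinate is real over the lower point -/
def ST_EXC0 (M : ℕ) : Prop := ∀ (g r : ℕ) (Cl : MCl (M + 2)) (w : Fin (M + 2) → ℝ) (ρ : ℝ) TT (N r' : ℕ)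
  (P : Spl w 0 N) (l : Fin N) (K : ℕ), Ctx M g r Cl w ρ TT N r' P l K →
    ∀ T c O, C1 P ρ TT r' l T c O → ∀ i, 1 ≤ h (dg (fl c l K i) 1) (T1 c P.z)

/-- [AD1] (AD) for the prolonged corners -/
def ST_AD1 (M : ℕ) : Prop := ∀ (g r : ℕ) (Cl : MCl (M + 2)) (w : Fin (M + 2) → ℝ) (ρ : ℝ) TT (N r' : ℕ)
  (P : Spl w 0 N) (l : Fin N) (K : ℕ), Ctx M g r Cl w ρ TT N r' P l K →
    Cls0 N r' P.w P.z l K ρ (C1 P ρ TT r' l) → AD (TilC P.w P.z l K (C1 P ρ TT r' l))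

/-- [PR1] (PR) for the prolonged corners -/
def ST_PR1 (M : ℕ) : Prop := ∀ (g r : ℕ) (Cl : MCl (M + 2)) (w : Fin (M + 2) → ℝ) (ρ : ℝ) TT (N r' : ℕ)
  (P : Spl w 0 N) (l : Fin N) (K : ℕ), Ctx M g r Cl w ρ TT N r' P l K →
    Cls0 N r' P.w P.z l K ρ (C1 P ρ TT r' l) → PR P.w (TilC P.w P.z l K (C1 P ρ TT r' l))

/-- [YY1] (Y) for the prolonged corners; `CC` = the class `CL` of helper75 -/
def ST_YY1 (CC : ∀ (M : ℕ), ℕ → MCl M) (M : ℕ) : Prop := ∀ (g r : ℕ) (Cl : MCl (M + 2)) (w : Fin (M + 2) → ℝ) (ρ : ℝ)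
  TT (N r' : ℕ) (P : Spl w 0 N) (l : Fin N) (K : ℕ), Ctx M g r Cl w ρ TT N r' P l K →
    Cls0 N r' P.w P.z l K ρ (C1 P ρ TT r' l) → STO (M + 2) (CC (M + 2) (K - 2)) →
      YY P.w P.z (TilC P.w P.z l K (C1 P ρ TT r' l))

/-- [CL1] (helper10) the class `C1` (`K` natural is part of the statement) -/
def ST_CL1 (M : ℕ) : Prop := ∀ (g r : ℕ) (Cl : MCl (M + 2)) (w : Fin (M + 2) → ℝ) (ρ : ℝ) TT,
  (∀ m, m < M + 2 → ST m) → Hom (M + 1) Cl g r w ρ TT → (∀ S s, TT S s → R1 w s) → nd1 w = 1 →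
    ∀ (N : ℕ) (P : Spl w 0 N) (l : Fin N), (∀ j, P.w l ≤ P.w j) → ∀ (r' : ℕ) (T : Sp) (c : CD T 0 N r'),
      CT P ρ TT r' l T c → ∃ K : ℕ, 2 ≤ K ∧ P.w l = K ∧ Cl1 N r' P.w P.z l K ρ (C1 P ρ TT r' l) ∧
        ∃ (T : Sp) (c : CD T 0 N r') (O : T.L), C1 P ρ TT r' l T c O

end

end Pool.Agent.Helper10.BLD
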