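import Pool.Agent.Helper10.BLD.Cl1a
import Pool.Agent.Helper5.BLD.Js
import Pool.Agent.Helper5.BLD.Kn
import Pool.Agent.Helper80.BLD.J1l

/-! THE BUILDER, one weight one: `ST_CL1`. -/

set_option autoImplicit false

namespace Pool.Agent.Helper10.BLD

open Finset Filter Topology Pool.Agent.Helper69.RK Pool.Agent.Helper31.EC Pool.Agent.Helper31.EC.Sp
open Pool.Agent.Helper31.EC.QS Pool.Agent.Helper84.MT Pool.Agent.Helper36.AM Pool.Agent.Helper13.AM
open Pool.Agent.Helper38.NS (dp dP dL dL_le)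
open Pool.Agent.Helper5.DO (J1 fu)
open Pool.Agent.Helper10.JET (tc NLE NL)

noncomputable section

theorem st_knat : ST_KNAT := fun _ _ _ _ _ _ _ _ A hW low hn => Pool.Agent.Helper5.BLD.knat A hW low hn

theorem nle_of_trc {T : Sp} {N r : ℕ} {w : Fin N → ℝ} {z : Fin N} {ρ : ℝ} {h0 : 0 < w z} {h1 : 1 ≤ w z}
    {c : CD T 0 N r} {cb : CD (dp T (w z) h0) 0 N r} (t : Trc h0 h1 c cb) (A : c.Ax w z ρ)
    (hA : ∀ (E : ∀ k, (T.F k).Ω → Prop) (hE : 0 < ul (T.pr E)), (c.rest E hE).Ax w z ρ ∧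
      (cb.rest (S := dp T (w z) h0) E hE).Ax w z ρ) : NLE (uL _ h0 cb.O) c.xi := by
  intro E hE X hO hX
  obtain ⟨A1, A2⟩ := hA E hE
  have h2 := Pool.Agent.Helper80.BLD.j1_lab (T := T.rest E) (h0 := h0) (h1 := h1) (trc_rest t E hE) A1 A2 0 le_rfl
    (by rw [mul_zero]; exact one_pos) X ?_ fun i => ?_
  · rw [eq_bot_iff]
    exact h2.trans (A1.bx.K_zero).le
  · refine hO.trans (le_of_eq ?_)
    have e1 : (cb.rest (S := dp T (w z) h0) E hE).O = restL (S := dp T (w z) h0) E hE cb.O :=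
      CD.rest_O (S := dp T (w z) h0) E hE
    refine Eq.trans (uL_rest _ h0 E hE cb.O).symm ?_
    exact congrArg (uL (S := T.rest E) (w z) h0) e1.symm
  · refine (hX i).trans ?_
    rw [CD.rest_xi E hE A.ln.bdd i]
    exact le_sup_left

theorem st_cl1 {M : ℕ} (hA : ST_AXP) (hLB : ST_LBK) (hTN : ST_TN) (hZ : ST_AXZ) (hV : ST_VWP (M + 1))
    (hW : ST_VWZ (M + 1)) (hVT : ST_VWT (M + 1)) (hN : ST_NRM (M + 1)) : ST_CL1 M := by
  refine st_cl1_of hA hLB hTN hZ hV hW hVT hN st_knat ?_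
  intro Cl g r w ρ TT hT N r' P l K hK wl low T c h0 h1 cb h2 h3 t
  have A := ct_ax hLB hTN hVT hT h2
  have Ab := ct_ax hLB hTN hVT hT h3
  have cut := cut_of_wd (K := K) h2.cc.ax0.wd wl
  have hw2 : ∀ j, 2 ≤ P.w j := fun j => by
    refine le_trans ?_ (low j)
    rw [wl]
    exact_mod_cast hK
  refine
    { hK := hK
      wl := wl
      low := low
      hO := t.O_le
      cut := cut
      jet := j1_jet t Ab wl low (m := K - 1) (by omega)
      vel := j1_vel t Ab hw2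
      r1 := Pool.Agent.Helper5.BLD.j1_r1 t wl h3.top
      spn := ?_
      lab := Pool.Agent.Helper80.BLD.j1_lab t A Ab
      nlk := Pool.Agent.Helper80.BLD.j1_nlk t A Ab
      nlw := Pool.Agent.Helper80.BLD.j1_nlw t A Ab }
  refine Pool.Agent.Helper5.BLD.j1_spn A hK cut ((dg_le_vd c.q 1 0).trans (le_sup_left.trans t.O_le))
    (fun m hm => j1_jet t Ab wl low hm) ?_ ?_
  · exact nle_of_trc t A fun E hE => ⟨ct_ax hLB hTN hVT hT (ct_rest hA hV hT h2 E hE),
      ct_ax hLB hTN hVT hT (ct_rest (T := dp T _ h0) hA hV hT h3 E hE)⟩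
  · intro E hE D κ hκ0 hκ1
    have h4 := hN Cl g r w ρ TT hT 0 N r' P (T.rest E) (c.rest E hE) (ct_rest hA hV hT h2 E hE).cc D κ hκ0 hκ1
    have e : (c.rest E hE).pt = fun a => QS.rest E hE (c.pt a) := by
      funext a
      rcases a with a | a <;> rfl
    rwa [e] at h4

end

end Pool.Agent.Helper10.BLD
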