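import Pool.Agent.Helper13.AM.BTop
import Pool.Agent.Helper36.AM.DK
import Pool.Agent.Helper81.MT.Bas
import Pool.Agent.Helper57.TA.Alg
import Pool.Agent.Helper37.DK2.Nst

/-! THE BUILDER: from a homogeneous class of systems of leaves (`Hom`) to a class of corners of the exact calculus
(`Cls`). Definitions and frozen statements, one per row.

The class of corners is `CCo`: the axioms `Ln`, `Bx`, the weighted degrees, the labels `nlw`, and the VIEW `Vw` over a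
member of the homogeneous class. The first four are closed under extensions, events and zooms at the level of the exact
calculus; the numbers `Num` (on all events) come from the view. -/

set_option autoImplicit false

namespace Pool.Agent.Helper10.BLD

open Finset Filter Topology Pool.Agent.Helper69.RK Pool.Agent.Helper31.EC Pool.Agent.Helper31.EC.Sp
open Pool.Agent.Helper31.EC.QS Pool.Agent.Helper40.EL Pool.Agent.Helper89.LX Pool.Agent.Helper84.MT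
open Pool.Agent.Helper36.AM Pool.Agent.Helper13.AM
open Pool.Agent.Helper82.TP (Lit)
open Pool.Agent.Helper57.TA (sc wgt rcst)
open Pool.Agent.Helper37.DK2 (DKU)

noncomputable section

/-! ### coordinates -/

/-- SPLITTING of the coordinates of `R ^ (M + 1)`: `d + 1` base coordinates (weight one) and `N` vertical ones -/
structure Spl {M : ℕ} (w : Fin (M + 1) → ℝ) (d N : ℕ) where
  bI : Fin (d + 1) → Fin (M + 1)
  vI : Fin N → Fin (M + 1)
  sb : StrictMono bI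
  sv : StrictMono vI
  bv : ∀ i j, bI i < vI j
  cov : ∀ a, (∃ i, bI i = a) ∨ ∃ j, vI j = a
  wb : ∀ i, w (bI i) = 1
  wv : ∀ j, 1 < w (vI j)
  z : Fin N
  hz : vI z = Fin.last M

/-- the vertical weights -/
def Spl.w {M : ℕ} {w : Fin (M + 1) → ℝ} {d N : ℕ} (P : Spl w d N) : Fin N → ℝ := fun j => w (P.vI j)

/-- coordinates of the point of a system -/
def qc {S : Sp} {m : ℕ} (Q : S.VV m) (j : Fin m) : QS S := QS.mk (TR.cor Q j)

/-- the base point in the real linear coordinates `A` -/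
def qA {S : Sp} {M d N : ℕ} {w : Fin (M + 1) → ℝ} (P : Spl w d N) (A : Matrix (Fin (d + 1)) (Fin (d + 1)) ℝ)
    (Q : S.VV (M + 1)) (i : Fin (d + 1)) : QS S := ∑ j, rcst S (A i j) * qc Q (P.bI j)

/-- the vertical point -/
def Rv {S : Sp} {M d N : ℕ} {w : Fin (M + 1) → ℝ} (P : Spl w d N) (Q : S.VV (M + 1)) (j : Fin N) : QS S :=
  qc Q (P.vI j)

/-! ### axioms of corners -/

section

variable {S : Sp} {d N r : ℕ}

/-- weighted degrees of the curves -/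
def Wd (c : CD S d N r) (w : Fin N → ℝ) : Prop := ∀ i j (k : Fin (c.g + 1)), w j < ((k : ℕ) : ℝ) → c.cf i j k = 0

/-- labels of the whole state, all windows -/
def Nlw (c : CD S d N r) (w : Fin N → ℝ) (z : Fin N) : Prop :=
  ∀ s, 0 ≤ s → w z * s < 1 → ∀ l : Lab S, UB (fun k => H ((l k).v) / (S.F k).n) →
    Nul S (fun k => (l k).leak (rp c.O k)) → (∀ i, Nul S (fun k => (l k).leak (rp (c.xi i ⊔ dg (c.q 0) s) k))) →
      Nul S (fun k => (l k).leak (rp (c.K s) k))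

/-- the TOTALS: entropies of the point at the levels `a` (and `b` for `z`) given the boxes -/
def Tot (c : CD S d N r) (w : Fin N → ℝ) (z : Fin N) (ρ : ℝ) : Prop :=
  ∀ s b a, 0 ≤ s → w z * s ≤ b → b ≤ a → a ≤ 1 →
    h (vd c.q a ⊔ vd (c.M z) a ⊔ dg (c.R z) b) (c.K s) =
      ((d : ℝ) + 1) * (a - s) + ∑ j ∈ univ.erase z, (a - w j * s) + (1 - ρ) * (b - w z * s)

/-- the axioms without the numbers -/
structure Ax0 (c : CD S d N r) (w : Fin N → ℝ) (z : Fin N) (ρ : ℝ) : Prop where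
  w1 : ∀ j, 1 < w j
  wz : ∀ j, w j ≤ w z
  rho0 : 0 < ρ
  rho1 : ρ ≤ 1
  ln : c.Ln
  wd : Wd c w
  bx : c.Bx w z
  nlw : Nlw c w z

end

/-! ### rows of the exact calculus -/

/-- [AXP] extensions and events -/
def ST_AXP : Prop := ∀ (S : Sp) (d N r : ℕ) (c : CD S d N r) (w : Fin N → ℝ) (z : Fin N) (ρ : ℝ), Ax0 c w z ρ →
  (∀ (T : Sp) (p : Pj T S), Ax0 (c.pull p) w z ρ) ∧
    ∀ (E : ∀ k, (S.F k).Ω → Prop) (hE : 0 < ul (S.pr E)), Ax0 (c.rest E hE) w z ρ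

/-- [LBK] the labels `lab` and `nlk` (resampling) from `nlw` (which is closed under extensions and events: AXP) -/
def ST_LBK : Prop := ∀ (S : Sp) (d N r : ℕ) (c : CD S d N r) (w : Fin N → ℝ) (z : Fin N) (ρ : ℝ),
  Ax0 c w z ρ → c.Lb w z

/-- [TN] the numbers from the totals: every coordinate has its upper bound from the frame -/
def ST_TN : Prop := ∀ (S : Sp) (d N r : ℕ) (c : CD S d N r) (w : Fin N → ℝ) (z : Fin N) (ρ : ℝ),
  Ax0 c w z ρ → Tot c w z ρ → c.Num w z ρ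

/-- STRONG ZOOM: the frame of scale `s'` of the zoom is the frame of scale `s + e s'` of `c` in the coordinates of the box
of scale `s` -/
structure ZRs {S : Sp} {d N r : ℕ} (c : CD S d N r) (w : Fin N → ℝ) (z : Fin N) (s e : ℝ) (he : 0 < e) (h1 : e ≤ 1)
    (Z : ∀ k, Setoid (S.F k).Ω) (c' : CD (S.chg Z e he) d N r) : Prop where
  zr : c.ZR w z s e he h1 Z c'
  q0 : ∀ s', 0 ≤ s' → w z * (s + e * s') ≤ 1 → ∀ i, ∃ X : QS S, c.q0 (s + e * s') i - c.q0 s i = sc S s * X ∧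
    c'.q0 s' i = cQ Z e he h1 X
  γ : ∀ s', 0 ≤ s' → w z * (s + e * s') ≤ 1 → ∀ j, ∃ Y : QS S, c.γ (s + e * s') j = sc S (w j * s) * Y ∧
    c'.γ s' j = cQ Z e he h1 Y

/-- [AXZ] zooms -/
def ST_AXZ : Prop := ∀ (S : Sp) (d N r : ℕ) (c : CD S d N r) (w : Fin N → ℝ) (z : Fin N) (ρ : ℝ), Ax0 c w z ρ →
  c.Num w z ρ → ∀ (s e : ℝ) (he : 0 < e) (h1 : e ≤ 1), 0 ≤ s → w z * s + e ≤ 1 → ∀ Z : ∀ k, Setoid (S.F k).Ω,
    (∀ k, Z k = Setoid.ker (c.VK s k)) → ∃ c' : CD (S.chg Z e he) d N r, ZRs c w z s e he h1 Z c' ∧ Ax0 c' w z ρ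

/-! ### the view of a corner over a member of the homogeneous class -/

section

variable {M g r d N r' : ℕ} {w : Fin (M + 1) → ℝ}

/-- VIEW: on a typical event the point of `c` is the point of the truncation of a member `t` of `TT` to the level `e`
(`w z * e < 1`), in real linear coordinates of the base, and the boxes are labels of `t` (closed range of scales). For
`d = 0` moreover every type of `t` knows the point or the curve of a type of `c` -/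
def Vw (P : Spl w d N) (TT : ∀ S : Sp, MSys S (M + 1) (lin g) (Fin r) → Prop) (T : Sp) (c : CD T d N r') : Prop :=
  ∃ (E : ∀ k, (T.F k).Ω → Prop) (hE : 0 < ul (T.pr E)) (S : Sp) (t : MSys S (M + 1) (lin g) (Fin r))
    (e : ℝ) (he : 0 < e) (h1 : e ≤ 1) (p : Pj (T.rest E) (S.chg S.tr e he)) (κ : ℝ → ℕ → Type)
    (V : ∀ s k, (S.F k).Ω → κ s k) (A : Matrix (Fin (d + 1)) (Fin (d + 1)) ℝ),
    Typ E ∧ TT S t ∧ P.w P.z * e < 1 ∧ IsUnit A.det ∧
    (∀ i, QS.rest E hE (c.q i) = p.qs (cQ S.tr e he h1 (qA P A t.Q i))) ∧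
    (∀ j, QS.rest E hE (c.R j) = p.qs (cQ S.tr e he h1 (Rv P t.Q j))) ∧
    (∀ s, 0 ≤ s → P.w P.z * s ≤ 1 → ∀ k ω ω', ((T.rest E).F k).μ ω ≠ 0 → ((T.rest E).F k).μ ω' ≠ 0 →
      ((T.rest E).F k).Z ω ω' → (c.VK s k ω = c.VK s k ω' ↔ V s k (p.π k ω) = V s k (p.π k ω'))) ∧
    (∀ s, 0 ≤ s → P.w P.z * s ≤ 1 → t.DMc (e * s) (Lab.ofZ fun k => Setoid.ker (V s k))) ∧
    (d = 0 → ∀ i0, PLe (rp (restL E hE c.O)) ((((t.trn e he h1).pull p).lf i0).win 0) ∨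
      ∃ i : Fin r', ∀ s, 0 ≤ s → s ≤ 1 →
        PLe (rp (restL E hE (c.xi i ⊔ dg (c.q 0) s))) ((((t.trn e he h1).pull p).lf i0).win s))

/-- the class of corners over the class `TT` -/
structure CCo (P : Spl w d N) (ρ : ℝ) (TT : ∀ S : Sp, MSys S (M + 1) (lin g) (Fin r) → Prop) (r' : ℕ) (T : Sp)
    (c : CD T d N r') : Prop where
  ax0 : Ax0 c P.w P.z ρ
  vw : Vw P TT T c

end

/-- [VWP] views under extensions and events -/
def ST_VWP (M : ℕ) : Prop := ∀ (Cl : MCl (M + 1)) (g r : ℕ) (w : Fin (M + 1) → ℝ) (ρ : ℝ) TT, Hom M Cl g r w ρ TT →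
  ∀ (d N r' : ℕ) (P : Spl w d N) (T : Sp) (c : CD T d N r'), CCo P ρ TT r' T c →
    (∀ (W : Sp) (p : Pj W T), Vw P TT W (c.pull p)) ∧
      ∀ (E : ∀ k, (T.F k).Ω → Prop) (hE : 0 < ul (T.pr E)), Vw P TT (T.rest E) (c.rest E hE)

/-- [VWZ] views under zooms; `s = 0`: truncation -/
def ST_VWZ (M : ℕ) : Prop := ∀ (Cl : MCl (M + 1)) (g r : ℕ) (w : Fin (M + 1) → ℝ) (ρ : ℝ) TT, Hom M Cl g r w ρ TT →
  ∀ (d N r' : ℕ) (P : Spl w d N) (T : Sp) (c : CD T d N r'), CCo P ρ TT r' T c →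
    ∀ (s e : ℝ) (he : 0 < e) (h1 : e ≤ 1), 0 ≤ s → P.w P.z * s + e ≤ 1 → ∀ Z : ∀ k, Setoid (T.F k).Ω,
      (∀ k, Z k = Setoid.ker (c.VK s k)) → ∀ c' : CD (T.chg Z e he) d N r', c.ZR P.w P.z s e he h1 Z c' →
        Ax0 c' P.w P.z ρ → Vw P TT _ c'

/-- [VWT] the totals from the view -/
def ST_VWT (M : ℕ) : Prop := ∀ (Cl : MCl (M + 1)) (g r : ℕ) (w : Fin (M + 1) → ℝ) (ρ : ℝ) TT, Hom M Cl g r w ρ TT →
  ∀ (d N r' : ℕ) (P : Spl w d N) (T : Sp) (c : CD T d N r'), CCo P ρ TT r' T c → Tot c P.w P.z ρ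

/-! ### members of the homogeneous class -/

section

variable {S : Sp} {M g r : ℕ}

/-- `f` is a coefficient of TOP weighted degree of the chart of the type `i` -/
def IsTop (w : Fin (M + 1) → ℝ) (s : MSys S (M + 1) (lin g) (Fin r)) (i : Fin r) (f : TR S) : Prop :=
  ∃ (j : Fin (M + 1)) (a : Fin (s.lf i).e →₀ ℕ) (G : ∀ k, (S.F k).Ω → MvPolynomial (Fin (s.lf i).e) ℝ),
    ((a.degree : ℕ) : ℝ) = w j ∧ (∀ k ω, ((G k ω).totalDegree : ℝ) ≤ w j) ∧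
    (∀ᶠ k in UF, ∀ ω, (S.F k).μ ω ≠ 0 → ∀ y, (s.lf i).F k ω y j = MvPolynomial.eval y (G k ω)) ∧
    ∀ᶠ k in UF, ∀ ω, (S.F k).μ ω ≠ 0 → TR.ev f k ω = (G k ω).coeff a

/-- (R1): the top coefficients of all types, to the resolution, are jointly independent of the point -/
def R1 (w : Fin (M + 1) → ℝ) (s : MSys S (M + 1) (lin g) (Fin r)) : Prop :=
  ∀ (n : ℕ) (f : Fin n → TR S) (ty : Fin n → Fin r), (∀ a, IsTop w s (ty a) (f a)) →
    I ((TR.vec f).dg 1) (s.Q.dg 1) ⊥ = 0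

end

/-- [R1] the subclass of the members with (R1) is homogeneous (flat stretch + diagonal) -/
def ST_R1 (M : ℕ) : Prop := ∀ (Cl : MCl (M + 1)) (g r : ℕ) (w : Fin (M + 1) → ℝ) (ρ : ℝ) TT, Hom M Cl g r w ρ TT →
  ∃ TT' : ∀ S : Sp, MSys S (M + 1) (lin g) (Fin r) → Prop, Hom M Cl g r w ρ TT' ∧ (∀ S s, TT' S s → TT S s) ∧
    ∀ S s, TT' S s → R1 w s

/-- [EX] a corner over a member (in a class with (R1)); `cf`: moreover the top coefficients of the curves (`w j` natural)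
are jointly independent of the point -/
def ST_EX (M : ℕ) : Prop := ∀ (Cl : MCl (M + 1)) (g r : ℕ) (w : Fin (M + 1) → ℝ) (ρ : ℝ) TT, Hom M Cl g r w ρ TT →
  (∀ S s, TT S s → R1 w s) → ∀ (d N : ℕ) (P : Spl w d N), ∃ (r' : ℕ) (T : Sp) (c : CD T d N r'), CCo P ρ TT r' T c ∧
    I (univ.sup fun x : Fin r' × Fin N × Fin (c.g + 1) => if P.w x.2.1 = ((x.2.2 : ℕ) : ℝ) then
      dg (c.cf x.1 x.2.1 x.2.2) 1 else ⊥) c.O ⊥ = 0

/-! ### the hypotheses of BLOCK for the class `CCo` -/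

/-- [ADM] (AD) -/
def ST_ADM (M : ℕ) : Prop := (∀ m, m < M + 1 → ST m) → ∀ (Cl : MCl (M + 1)) (g r : ℕ) (w : Fin (M + 1) → ℝ) (ρ : ℝ) TT,
  Hom M Cl g r w ρ TT → (∀ S s, TT S s → R1 w s) → ∀ (d N r' : ℕ) (P : Spl w d N),
    STO (M + 1) (DKU (M + 1) (d + 2)) → AD (CCo P ρ TT r')

/-- [PRM] (PR) -/
def ST_PRM (M : ℕ) : Prop := (∀ m, m < M + 1 → ST m) → ∀ (Cl : MCl (M + 1)) (g r : ℕ) (w : Fin (M + 1) → ℝ) (ρ : ℝ) TT,
  Hom M Cl g r w ρ TT → ∀ (d N r' : ℕ) (P : Spl w d N), PR P.w (CCo P ρ TT r')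

/-- [NRM] (H) -/
def ST_NRM (M : ℕ) : Prop := ∀ (Cl : MCl (M + 1)) (g r : ℕ) (w : Fin (M + 1) → ℝ) (ρ : ℝ) TT, Hom M Cl g r w ρ TT →
  ∀ (d N r' : ℕ) (P : Spl w d N), Helper13.AM.NR (CCo P ρ TT r')

/-- [YYM] (Y) for at least two weights one: only structure theorems of smaller dimension -/
def ST_YYM (M : ℕ) : Prop := (∀ m, m < M + 1 → ST m) → ∀ (Cl : MCl (M + 1)) (g r : ℕ) (w : Fin (M + 1) → ℝ) (ρ : ℝ) TT,
  Hom M Cl g r w ρ TT → ∀ (d N r' : ℕ) (P : Spl w d N), 1 ≤ d → YY P.w P.z (CCo P ρ TT r')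

/-! ### assembly -/

section

variable {M g r d N r' : ℕ} {w : Fin (M + 1) → ℝ} {ρ : ℝ} {Cl : MCl (M + 1)}
  {TT : ∀ S : Sp, MSys S (M + 1) (lin g) (Fin r) → Prop}

/-- THE CLASS OF CORNERS over a homogeneous class -/
theorem cls_CCo (h1 : ST_AXP) (h2 : ST_LBK) (h3 : ST_TN) (h4 : ST_AXZ) (h5 : ST_VWP M) (h6 : ST_VWZ M) (h7 : ST_VWT M)
    (hT : Hom M Cl g r w ρ TT) (P : Spl w d N) : Cls d N r' P.w P.z ρ (CCo P ρ TT r') where
  ax := fun S c hc => by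
    have a := hc.ax0
    exact ⟨a.w1, a.wz, a.rho0, a.rho1, a.ln, a.bx, h3 _ _ _ _ _ _ _ _ a (h7 Cl g r w ρ TT hT d N r' P S c hc),
      h2 _ _ _ _ _ _ _ _ a⟩
  pull := fun S c hc T p => ⟨(h1 _ _ _ _ _ _ _ _ hc.ax0).1 T p, (h5 Cl g r w ρ TT hT d N r' P S c hc).1 T p⟩
  rest := fun S c hc E hE => ⟨(h1 _ _ _ _ _ _ _ _ hc.ax0).2 E hE, (h5 Cl g r w ρ TT hT d N r' P S c hc).2 E hE⟩
  zoom := fun S c hc s e he he1 hs hse Z hZ => by
    obtain ⟨c', a, b⟩ := h4 _ _ _ _ _ _ _ _ hc.ax0 (h3 _ _ _ _ _ _ _ _ hc.ax0 (h7 Cl g r w ρ TT hT d N r' P S c hc))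
      s e he he1 hs hse Z hZ
    exact ⟨c', a.zr, b, h6 Cl g r w ρ TT hT d N r' P S c hc s e he he1 hs hse Z hZ c' a.zr b⟩

end

end

end Pool.Agent.Helper10.BLD
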