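import Pool.Agent.Helper10.BLD.Cl1b
import Pool.Agent.Helper10.BLD.Asm1
import Pool.Agent.Helper90.HR1.Ad10
import Pool.Agent.Helper90.BLD.Lbk
import Pool.Agent.Helper33.CM.Tn
import Pool.Agent.Helper99.BLD.Nlwp
import Pool.Agent.Helper99.BLD.Vwt
import Pool.Agent.Helper71.BLD.Axz
import Pool.Agent.Helper68.VW.Vwp
import Pool.Agent.Helper5.BLD.Nrm
import Pool.Agent.Helper56.STL.Yys
import Pool.Agent.Helper56.STL.Yy1
import Pool.Agent.Helper91.EXA.St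
import Pool.Agent.Helper62.BLD.Vwz

/-! THE BUILDER: `ST_BLD` and `ST_BLD1` from the rows which are still open. -/

set_option autoImplicit false

namespace Pool.Agent.Helper10.BLD

open Pool.Agent.Helper31.EC Pool.Agent.Helper84.MT Pool.Agent.Helper36.AM Pool.Agent.Helper13.AM
open Pool.Agent.Helper37.DK2 (DKU)

noncomputable section

theorem bld_of {M : ℕ} (hA : ST_ADM M) (hP : ST_PRM M) : ST_BLD DKU M :=
  st_bld Pool.Agent.Helper99.BLD.st_axp (Pool.Agent.Helper90.BLD.st_lbk Pool.Agent.Helper99.BLD.st_axp)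
    Pool.Agent.Helper33.CM.st_tn Pool.Agent.Helper71.BLD.st_axz (Pool.Agent.Helper68.VW.st_vwp M)
    (Pool.Agent.Helper62.BLD.st_vwz M) (Pool.Agent.Helper99.BLD.st_vwt M) (Pool.Agent.Helper90.HR1.st_r1 M)
    (Pool.Agent.Helper91.EXA.st_ex M) hA hP (Pool.Agent.Helper5.BLD.st_nrm M)
    (st_yym (Pool.Agent.Helper90.BLD.st_lbk Pool.Agent.Helper99.BLD.st_axp)
      Pool.Agent.Helper33.CM.st_tn (Pool.Agent.Helper99.BLD.st_vwt M))

theorem st_cl1' (M : ℕ) : ST_CL1 M :=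
  st_cl1 Pool.Agent.Helper99.BLD.st_axp (Pool.Agent.Helper90.BLD.st_lbk Pool.Agent.Helper99.BLD.st_axp)
    Pool.Agent.Helper33.CM.st_tn Pool.Agent.Helper71.BLD.st_axz (Pool.Agent.Helper68.VW.st_vwp (M + 1))
    (Pool.Agent.Helper62.BLD.st_vwz (M + 1)) (Pool.Agent.Helper99.BLD.st_vwt (M + 1))
    (Pool.Agent.Helper5.BLD.st_nrm (M + 1))

theorem bld1_of {CC : ∀ (M : ℕ), ℕ → MCl M} {M : ℕ} (hE : ST_EXC0 M) (hA : ST_AD1 M) (hP : ST_PR1 M)
    (hY : ST_YY1 CC M) : ST_BLD1 DKU CC M :=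
  st_bld1 (Pool.Agent.Helper90.HR1.st_r1 (M + 1)) (Pool.Agent.Helper91.EXA.st_ex (M + 1)) (st_cl1' M) hE hA hP hY

end

end Pool.Agent.Helper10.BLD
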