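import Pool.Agent.Helper10.BLD.Fin
import Pool.Agent.Helper56.LOW.Cvt
import Pool.Agent.Helper48.DGR.Dgr
import Pool.Agent.Helper36.AM.Top
import Pool.Agent.Helper36.AM.Su

/-! THE BUILDER, part 2: `LOW` without hypotheses; `ST_BLD1` for the classes `CL`, from the rows which are still open. -/

set_option autoImplicit false

namespace Pool.Agent.Helper10.BLD

open Pool.Agent.Helper31.EC Pool.Agent.Helper84.MT Pool.Agent.Helper36.AM Pool.Agent.Helper13.AM
open Pool.Agent.Helper69.RK Pool.Agent.Helper40.EL Pool.Agent.Helper89.LX Pool.Agent.Helper3.LF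
open Pool.Agent.Helper37.DK2 (DKU)
open Pool.Agent.Helper75.CC (CL CC)

noncomputable section

/-- the structure theorem in all degrees -/
theorem sto_of_st {M : ℕ} (h : ST M) : STO M (top M) := by
  intro S g r s _
  obtain ⟨D₁, h1⟩ := h g r
  obtain ⟨x, hx⟩ := s.exists_can D₁ 0
  have h2 := STm_iff.mp (h1 D₁ le_rfl) S s x hx
  rw [HQ_eq s hx.2] at h2
  by_cases hb : BddBelow (Set.range fun D => s.vol D 0)
  · exact (ciInf_le hb D₁).trans h2
  · have h3 : volO s 0 = 0 := Real.iInf_of_not_bddBelow hb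
    rw [h3]
    exact H_nonneg _

/-- the degrees do not depend on the number of types -/
theorem stu_of_st {M : ℕ} (h : ∀ m, m < M → ST m) : ∀ m, m < M → STu m := by
  intro m
  induction m using Nat.strong_induction_on with
  | _ m ih =>
    intro hm
    match m, ih, hm with
    | 0, _, _ => exact stu_zero
    | m + 1, ih, hm =>
      exact st_of_sto (fun k hk => ih k hk (hk.trans hm)) (Pool.Agent.Helper48.DGR.dgru m) (sto_of_st (h _ hm))

/-- row DGR in the form with `ST` -/
theorem dgr (M : ℕ) : DGR (M + 1) := fun hst g r =>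
  (Pool.Agent.Helper48.DGR.dgru M).dgr (stu_of_st hst) hst g r

/-- row YY1 for the classes `CL` -/
theorem st_yy1_fin (M : ℕ) : ST_YY1 CL M := Pool.Agent.Helper56.LOW.st_yy1_CL (dgr (M + 1))

/-- row LOW -/
theorem low_fin (M : ℕ) : LOW CC M :=
  Pool.Agent.Helper56.LOW.st_low Pool.Agent.Helper99.BLD.st_axp
    (Pool.Agent.Helper90.BLD.st_lbk Pool.Agent.Helper99.BLD.st_axp)
    Pool.Agent.Helper33.CM.st_tn Pool.Agent.Helper71.BLD.st_axz (Pool.Agent.Helper68.VW.st_vwp (M + 1))
    (Pool.Agent.Helper62.BLD.st_vwz (M + 1)) (Pool.Agent.Helper99.BLD.st_vwt (M + 1))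
    (Pool.Agent.Helper90.HR1.st_r1 (M + 1)) (Pool.Agent.Helper91.EXA.st_ex (M + 1)) (Pool.Agent.Helper5.BLD.st_nrm (M + 1))

/-- `ST_BLD1` for the classes `CL` -/
theorem bld1_CL {M : ℕ} (hE : ST_EXC0 M) (hA : ST_AD1 M) (hP : ST_PR1 M) : ST_BLD1 DKU CL M :=
  bld1_of hE hA hP (st_yy1_fin M)

end

end Pool.Agent.Helper10.BLD
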