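import Pool.Agent.Helper10.BLD.Fin1
import Pool.Agent.Helper24.PR1.Fin
import Pool.Agent.Helper24.PR.Prm
import Pool.Agent.Helper21.PT.Exc

/-! THE BUILDER, part 3: `ST_BLD` from ADM, `ST_BLD1` from AD1. -/

set_option autoImplicit false

namespace Pool.Agent.Helper10.BLD

open Pool.Agent.Helper84.MT Pool.Agent.Helper36.AM Pool.Agent.Helper13.AM
open Pool.Agent.Helper37.DK2 (DKU)
open Pool.Agent.Helper75.CC (CL CC)

noncomputable section

theorem bld_adm {M : ℕ} (hA : ST_ADM M) : ST_BLD DKU M := bld_of hA (Pool.Agent.Helper24.PR.st_PRM M)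

theorem bld1_ad1 {M : ℕ} (hA : ST_AD1 M) : ST_BLD1 DKU CL M :=
  bld1_CL (Pool.Agent.Helper21.PT.st_exc0 M) hA (Pool.Agent.Helper24.PR1.st_pr1 M)

end

end Pool.Agent.Helper10.BLD
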