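import Pool.Agent.Helper10.BLD.Fin2
import Pool.Agent.Helper99.BLD.Adm

/-! THE BUILDER, closed. -/

set_option autoImplicit false

namespace Pool.Agent.Helper10.BLD

open Pool.Agent.Helper84.MT Pool.Agent.Helper36.AM Pool.Agent.Helper13.AM
open Pool.Agent.Helper37.DK2 (DKU)
open Pool.Agent.Helper75.CC (CL CC)

noncomputable section

theorem bld_fin (M : ℕ) : ST_BLD DKU M := bld_adm (Pool.Agent.Helper99.BLD.st_adm M)

theorem bld1_fin (M : ℕ) : ST_BLD1 DKU CL M := bld1_ad1 (Pool.Agent.Helper99.BLD.st_ad1 M)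

end

end Pool.Agent.Helper10.BLD
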