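import Pool.Agent.Helper10.BLD.Tc

/-! THE BUILDER, one weight one: jets of the lowest coordinate and velocities of all coordinates are common to the types
and known to the point. -/

set_option autoImplicit false

namespace Pool.Agent.Helper10.BLD

open Finset Filter Topology Pool.Agent.Helper69.RK Pool.Agent.Helper31.EC Pool.Agent.Helper31.EC.Sp
open Pool.Agent.Helper31.EC.QS Pool.Agent.Helper13.AM
open Pool.Agent.Helper57.TA (sc wgt)
open Pool.Agent.Helper10.JET (tc tc_sub tc_known near full_beyond hasse_small)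
open Pool.Agent.Helper38.NS (dp dP dL dL_le)
open Pool.Agent.Helper5.DO (PU PU_mono PU_C PU_aeval chain eval_aeval tc_one tc_hom py py_coeff py_eval py_PU py_map
  p0 p0_coeff p0_PU p0_eval cf_le_cv f0_K xi_eq)

noncomputable section

section

variable {S : Sp} {N r : ℕ} {c : CD S 0 N r} {w : Fin N → ℝ} {z : Fin N} {ρ : ℝ} (A : c.Ax w z ρ) {s : ℝ}
  (hs0 : 0 ≤ s) (hs : w z * s ≤ 1)

include A hs0 hs

theorem s_lt : s < 1 := by
  have h1 := A.w1 z
  by_contra hc
  push Not at hc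
  nlinarith

/-- box coordinates along the curve -/
theorem exists_gp (i : Fin r) : ∃ g : Fin N → Polynomial (QS S), (∀ j, g j ∈ PU (c.xi i ⊔ c.K s)) ∧
    ∀ j, (g j).eval (c.q 0) = c.γ s j := by
  obtain ⟨V, hV⟩ : ∃ V : Subring (QS S), V = (PU (c.xi i ⊔ c.K s)).map (Polynomial.evalRingHom (c.q 0)) := ⟨_, rfl⟩
  have hm : ∀ p : Polynomial (QS S), p ∈ PU (c.xi i ⊔ c.K s) → p.eval (c.q 0) ∈ V := fun p hp => by
    rw [hV]
    exact ⟨p, hp, rfl⟩
  have hC : ∀ f : QS S, dg f 1 ≤ c.xi i ⊔ c.K s → f ∈ V := fun f hf => by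
    have h1 := hm (Polynomial.C f) (PU_C hf)
    rwa [Polynomial.eval_C] at h1
  have key : ∀ j, c.γ s j ∈ V := by
    refine CD.gam_mem A.bx (fun j => zero_lt_one.trans (A.w1 j)) hs0 hs V (fun j => ?_) (fun a => ?_) fun j n => ?_
    · have h1 := hm (py (c.cf i j)) (py_PU (((cf_le_cv i j).trans le_sup_right).trans le_sup_left))
      rwa [py_eval, ← A.ln.curve] at h1
    · have ha : a = 0 := Fin.ext (by omega)
      subst ha
      have h1 := hm Polynomial.X (fun m => by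
        rw [Polynomial.coeff_X]
        split_ifs
        · exact (Kn S 1 le_rfl _).one_mem
        · exact (Kn S 1 le_rfl _).zero_mem)
      rw [Polynomial.eval_X] at h1
      exact V.sub_mem h1 (hC _ (((A.bx.litq s 0).dg_le (A.bx.bdd s) le_rfl).trans le_sup_right))
    · exact hC _ (((A.bx.litF s j n).dg_le (A.bx.bdd s) le_rfl).trans le_sup_right)
  have key2 : ∀ j, ∃ g : Polynomial (QS S), g ∈ PU (c.xi i ⊔ c.K s) ∧ g.eval (c.q 0) = c.γ s j := by
    intro j
    have h1 := key j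
    rw [hV] at h1
    obtain ⟨g, h2, h3⟩ := h1
    exact ⟨g, h2, h3⟩
  choose g h1 h2 using key2
  exact ⟨g, h1, h2⟩

/-- derivatives along the curve of functions which are small at the point -/
theorem hasse_box (i : Fin r) {P : Polynomial (QS S)} (hP : P ∈ PU (c.xi i ⊔ c.K s)) {a : ℝ} (ha : a ≤ 1)
    (h0 : P.eval (c.q 0) ∈ Id S a) (m : ℕ) : tc P (c.q 0) m ∈ Id S (a - m * s) :=
  hasse_small P (c.q 0) hP hs0 (s_lt A hs0 hs)
    (full_beyond (A.ln.time i) hs0 (CD.K_le_xi A.ln A.bx hs0 hs i)) ha h0 m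

/-- VELOCITIES -/
theorem vel_corner (hw2 : ∀ j, 2 ≤ w j) (j : Fin N) : ∃ f : QS S, dg f 1 ≤ c.O ∧
    ∀ i, tc (py (c.cf i j)) (c.q 0) 1 - f ∈ Id S s := by
  have hKO : c.K s ≤ c.O := A.bx.K_le hs0 hs
  have hs2 : 2 * s ≤ 1 := (mul_le_mul_of_nonneg_right (hw2 z) hs0).trans hs
  obtain ⟨x, hx⟩ : ∃ x : Fin (0 + 1) ⊕ Fin N → QS S, x = Sum.elim (fun i => c.q i - c.q0 s i) (c.γ s) := ⟨_, rfl⟩
  have hxO : ∀ a, dg (x a) 1 ≤ c.O := by
    rintro (a | a)
    · rw [hx]
      exact (Kn S 1 le_rfl c.O).sub_mem ((dg_le_vd c.q 1 a).trans le_sup_left)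
        (((A.bx.litq s a).dg_le (A.bx.bdd s) le_rfl).trans hKO)
    · rw [hx]
      exact gam_O A hs0 hs a
  refine ⟨MvPolynomial.eval x (MvPolynomial.pderiv (Sum.inl 0) (c.F s j)), ?_, fun i => ?_⟩
  · refine eval_mem_sub (Kn S 1 le_rfl c.O) _ _ (fun n => ?_) fun n _ a _ => hxO a
    rw [MvPolynomial.coeff_pderiv]
    refine (Kn S 1 le_rfl c.O).mul_mem ?_ ?_
    · exact ((A.bx.litF s j _).dg_le (A.bx.bdd s) le_rfl).trans hKO
    · exact_mod_cast natCast_mem (Kn S 1 le_rfl c.O) (n (Sum.inl 0) + 1)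
  · obtain ⟨g, hg1, hg2⟩ := exists_gp A hs0 hs i
    obtain ⟨φ, hφ⟩ : ∃ φ : Fin (0 + 1) ⊕ Fin N → Polynomial (QS S), φ = Sum.elim
      (fun a => Polynomial.X - Polynomial.C (c.q0 s a)) g := ⟨_, rfl⟩
    have hφe : (fun a => (φ a).eval (c.q 0)) = x := by
      funext a
      rw [hφ, hx]
      rcases a with a | a
      · have ha : a = 0 := Fin.ext (by omega)
        subst ha
        simp
      · exact hg2 a
    have hφk : ∀ a, φ a ∈ PU (c.xi i ⊔ c.K s) := by
      intro a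
      rw [hφ]
      rcases a with a | a
      · refine (PU _).sub_mem (fun m => ?_) (PU_C (((A.bx.litq s a).dg_le (A.bx.bdd s) le_rfl).trans le_sup_right))
        rw [Polynomial.coeff_X]
        split_ifs
        · exact (Kn S 1 le_rfl _).one_mem
        · exact (Kn S 1 le_rfl _).zero_mem
      · exact hg1 a
    obtain ⟨G, hG⟩ : ∃ G : Polynomial (QS S), G = MvPolynomial.aeval φ (c.F s j) + g j := ⟨_, rfl⟩
    have hGk : G ∈ PU (c.xi i ⊔ c.K s) := by
      rw [hG]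
      exact (PU _).add_mem (PU_aeval (fun n => ((A.bx.litF s j n).dg_le (A.bx.bdd s) le_rfl).trans le_sup_right) hφk)
        (hg1 j)
    have hPk : py (c.cf i j) ∈ PU (c.xi i ⊔ c.K s) :=
      py_PU (((cf_le_cv i j).trans le_sup_right).trans le_sup_left)
    have hGe : G.eval (c.q 0) = c.R j := by
      rw [hG, Polynomial.eval_add, eval_aeval, hφe, hg2, A.bx.fR s hs0 hs j, hx]
    have h1 := hasse_box A hs0 hs i ((PU _).sub_mem hPk hGk) (le_refl (1 : ℝ)) (by
      rw [Polynomial.eval_sub, hGe, py_eval, ← A.ln.curve, sub_self]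
      exact (Id S 1).zero_mem) 1
    rw [tc_sub, Nat.cast_one, one_mul] at h1
    have h2 : tc G (c.q 0) 1 - MvPolynomial.eval x (MvPolynomial.pderiv (Sum.inl 0) (c.F s j)) ∈ Id S s := by
      have e1 : tc G (c.q 0) 1 = MvPolynomial.eval x (MvPolynomial.pderiv (Sum.inl 0) (c.F s j)) +
          (∑ l, MvPolynomial.eval x (MvPolynomial.pderiv (Sum.inr l) (c.F s j)) * tc (g l) (c.q 0) 1 +
            tc (g j) (c.q 0) 1) := by
        rw [tc_one, hG, Polynomial.derivative_add, chain, Polynomial.eval_add, Polynomial.eval_finsetSum,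
          Fintype.sum_sum_type, tc_one (g j)]
        simp only [Polynomial.eval_mul, eval_aeval, hφe]
        rw [Fin.sum_univ_succ, Fin.sum_univ_zero, add_zero]
        have e2 : (Polynomial.derivative (φ (Sum.inl 0))).eval (c.q 0) = 1 := by
          rw [hφ]
          simp
        have e3 : ∀ l, (Polynomial.derivative (φ (Sum.inr l))).eval (c.q 0) = tc (g l) (c.q 0) 1 := by
          intro l
          rw [hφ, tc_one]
          rfl
        rw [e2, mul_one]
        simp only [e3]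
        rw [add_assoc]
      rw [e1, add_sub_cancel_left]
      have h3 : ∀ l, tc (g l) (c.q 0) 1 ∈ Id S s := by
        intro l
        have h4 := hasse_box A hs0 hs i (hg1 l) (a := w l * s) ((mul_le_mul_of_nonneg_right (A.wz l) hs0).trans hs) (by
          rw [hg2]
          exact A.bx.fγ s hs0 hs l) 1
        refine Id_anti ?_ h4
        rw [Nat.cast_one, one_mul]
        have := mul_le_mul_of_nonneg_right (hw2 l) hs0
        linarith
      refine (Id S s).add_mem ((Id S s).sum_mem fun l _ => (Id S s).mul_mem_left _ (h3 l)) (h3 j)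
    have h3 : tc (py (c.cf i j)) (c.q 0) 1 - tc G (c.q 0) 1 ∈ Id S s := Id_anti (by linarith) h1
    have h4 := (Id S s).add_mem h3 h2
    rwa [sub_add_sub_cancel] at h4

/-- JETS of the lowest coordinate -/
theorem jet_corner {l : Fin N} {K : ℕ} (wl : w l = K) (low : ∀ j, w l ≤ w j) {m : ℕ} (hm : m < K) :
    ∃ f : QS S, dg f 1 ≤ c.O ∧ ∀ i, tc (py (c.cf i l)) (c.q 0) m - f ∈ Id S s := by
  have hKO : c.K s ≤ c.O := A.bx.K_le hs0 hs
  have htO : dg (c.q 0) 1 ≤ c.O := (dg_le_vd c.q 1 0).trans le_sup_left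
  obtain ⟨b, hb⟩ : ∃ b : Polynomial (QS S), b = (p0 K (c.F s l)).comp (Polynomial.X - Polynomial.C (c.q0 s 0)) :=
    ⟨_, rfl⟩
  have hbk : b ∈ PU (c.K s) := by
    rw [hb, Polynomial.comp_eq_sum_left, Polynomial.sum_def]
    refine (PU _).sum_mem fun n _ => (PU _).mul_mem (PU_C (p0_PU (fun n => f0_K A s n l) n)) ((PU _).pow_mem ?_ _)
    refine (PU _).sub_mem (fun m => ?_) (PU_C ((A.bx.litq s 0).dg_le (A.bx.bdd s) le_rfl))
    rw [Polynomial.coeff_X]
    split_ifs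
    · exact (Kn S 1 le_rfl _).one_mem
    · exact (Kn S 1 le_rfl _).zero_mem
  refine ⟨tc b (c.q 0) m, (tc_known (PU_mono hKO hbk) htO m), fun i => ?_⟩
  have h1 := near (A.ln.time i) hs0 (s_lt A hs0 hs) (CD.K_le_xi A.ln A.bx hs0 hs i)
    (P := py (c.cf i l)) (b := b) (py_PU (by rw [xi_eq A]; exact cf_le_cv i l)) hbk
    (ρ := w l * s) ((mul_le_mul_of_nonneg_right (A.wz l) hs0).trans hs) (by
      rw [py_eval, ← A.ln.curve, hb, Polynomial.eval_comp, Polynomial.eval_sub, Polynomial.eval_X, Polynomial.eval_C]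
      have h2 := A.bx.fR s hs0 hs l
      rw [p0_eval wl low (A.bx.deg s l)] at h2
      have e : c.R l - (p0 K (c.F s l)).eval (c.q 0 - c.q0 s 0) = c.γ s l := by
        rw [h2]
        simp
      rw [e]
      exact A.bx.fγ s hs0 hs l) m
  refine Id_anti ?_ h1
  have h2 : ((m : ℝ) + 1) ≤ K := by exact_mod_cast hm
  rw [wl]
  nlinarith

/-- JETS of the lowest coordinate, level by level -/
theorem jet_dg {l : Fin N} {K : ℕ} (wl : w l = K) (low : ∀ j, w l ≤ w j) {m : ℕ} (hm : m < K) (i : Fin r) :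
    dg (tc (py (c.cf i l)) (c.q 0) m) s ≤ vd c.q (w z * s) ⊔ vd c.R (w z * s) := by
  have hs1 : s ≤ 1 := (s_lt A hs0 hs).le
  obtain ⟨b, hb⟩ : ∃ b : Polynomial (QS S), b = (p0 K (c.F s l)).comp (Polynomial.X - Polynomial.C (c.q0 s 0)) :=
    ⟨_, rfl⟩
  have hbk : b ∈ PU (c.K s) := by
    rw [hb, Polynomial.comp_eq_sum_left, Polynomial.sum_def]
    refine (PU _).sum_mem fun n _ => (PU _).mul_mem (PU_C (p0_PU (fun n => f0_K A s n l) n)) ((PU _).pow_mem ?_ _)
    refine (PU _).sub_mem (fun m => ?_) (PU_C ((A.bx.litq s 0).dg_le (A.bx.bdd s) le_rfl))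
    rw [Polynomial.coeff_X]
    split_ifs
    · exact (Kn S 1 le_rfl _).one_mem
    · exact (Kn S 1 le_rfl _).zero_mem
  have h1 := near (A.ln.time i) hs0 (s_lt A hs0 hs) (CD.K_le_xi A.ln A.bx hs0 hs i)
    (P := py (c.cf i l)) (b := b) (py_PU (by rw [xi_eq A]; exact cf_le_cv i l)) hbk
    (ρ := w l * s) ((mul_le_mul_of_nonneg_right (A.wz l) hs0).trans hs) (by
      rw [py_eval, ← A.ln.curve, hb, Polynomial.eval_comp, Polynomial.eval_sub, Polynomial.eval_X, Polynomial.eval_C]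
      have h2 := A.bx.fR s hs0 hs l
      rw [p0_eval wl low (A.bx.deg s l)] at h2
      have e : c.R l - (p0 K (c.F s l)).eval (c.q 0 - c.q0 s 0) = c.γ s l := by
        rw [h2]
        simp
      rw [e]
      exact A.bx.fγ s hs0 hs l) m
  have h2 : ((m : ℝ) + 1) ≤ K := by exact_mod_cast hm
  have h3 : tc (py (c.cf i l)) (c.q 0) m - tc b (c.q 0) m ∈ Id S s := by
    refine Id_anti ?_ h1
    rw [wl]
    nlinarith
  rw [dg_eq_of_sub_mem h3 le_rfl hs1]
  have hws : s ≤ w z * s := by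
    have := A.w1 z
    nlinarith
  have h4 : c.K s ≤ vd c.q (w z * s) ⊔ vd c.R (w z * s) := A.bx.pt s hs0 hs
  have h5 : dg (c.q 0) s ≤ vd c.q (w z * s) ⊔ vd c.R (w z * s) :=
    (dg_mono _ hws).trans ((dg_le_vd c.q _ 0).trans le_sup_left)
  have h6 : Polynomial.hasseDeriv m b ∈ PU (c.K s) := Pool.Agent.Helper10.JET.PU_hasse hbk m
  unfold tc
  rw [Polynomial.eval_eq_sum_range]
  refine (Kn S s hs1 (vd c.q (w z * s) ⊔ vd c.R (w z * s))).sum_mem fun a _ =>
    (Kn S s hs1 _).mul_mem ?_ ((Kn S s hs1 _).pow_mem h5 a)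
  exact (dg_mono _ hs1).trans ((h6 a).trans h4)

end

/-! ### at the resolution of the space, known to the deep point -/

section

variable {T : Sp} {N r : ℕ} {w : Fin N → ℝ} {z : Fin N} {ρ : ℝ} {h0 : 0 < w z} {h1 : 1 ≤ w z} {c : CD T 0 N r}
  {cb : CD (dp T (w z) h0) 0 N r} (t : Trc h0 h1 c cb) (Ab : cb.Ax w z ρ)

include t Ab

theorem lift_jet (j : Fin N) (m : ℕ) (h : ∃ f : QS (dp T (w z) h0), dg f 1 ≤ cb.O ∧
    ∀ i, tc (py (cb.cf i j)) (cb.q 0) m - f ∈ Id (dp T (w z) h0) (1 / w z)) :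
    ∃ f : QS T, dg f 1 ≤ uL _ h0 cb.O ∧ ∀ i, tc (py (c.cf i j)) (c.q 0) m = f := by
  obtain ⟨f, h2, h3⟩ := h
  refine ⟨uQ _ h0 h1 f, ?_, fun i => ?_⟩
  · rw [uQ_dg _ _ _ _ le_rfl]
    exact uL_mono _ _ ((dg_mono _ (div_le_one_of _ h1 le_rfl)).trans h2)
  · rw [t.cf, t.q, ← tc_hom]
    exact (uQ_eq _ h0 h1).mpr (h3 i)

theorem j1_vel (hw2 : ∀ j, 2 ≤ w j) (j : Fin N) : ∃ f : QS T, dg f 1 ≤ uL _ h0 cb.O ∧
    ∀ i, tc (py (c.cf i j)) (c.q 0) 1 = f :=
  lift_jet t Ab j 1 (vel_corner Ab (div_nonneg zero_le_one h0.le) (by rw [mul_one_div_cancel h0.ne']) hw2 j)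

/-- jets of the lowest coordinate, level by level, from the digits of the deep point -/
theorem j1_dg {l : Fin N} {K : ℕ} (wl : w l = K) (low : ∀ j, w l ≤ w j) {m : ℕ} (hm : m < K) (i : Fin r) {e : ℝ}
    (he0 : 0 ≤ e) (he1 : e ≤ 1) : dg (tc (py (c.cf i l)) (c.q 0) m) e ≤ uL _ h0 (vd cb.q e ⊔ vd cb.R e) := by
  have h2 : w z * (e / w z) = e := mul_div_cancel₀ _ h0.ne'
  have h3 := jet_dg Ab (s := e / w z) (div_nonneg he0 h0.le) (by rw [h2]; exact he1) wl low hm i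
  rw [h2] at h3
  rw [t.cf, t.q, ← tc_hom, uQ_dg _ _ _ _ he1]
  exact uL_mono _ _ h3

theorem j1_jet {l : Fin N} {K : ℕ} (wl : w l = K) (low : ∀ j, w l ≤ w j) {m : ℕ} (hm : m < K) :
    ∃ f : QS T, dg f 1 ≤ uL _ h0 cb.O ∧ ∀ i, tc (py (c.cf i l)) (c.q 0) m = f :=
  lift_jet t Ab l m (jet_corner Ab (div_nonneg zero_le_one h0.le) (by rw [mul_one_div_cancel h0.ne']) wl low hm)

end

end

end Pool.Agent.Helper10.BLD
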