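import Pool.Agent.Helper10.BLD.Tp

/-! THE BUILDER, one weight one: the relation `Trc` between a corner and its deep corner: consequences, closure under
extensions, events, zooms; existence. -/

set_option autoImplicit false

namespace Pool.Agent.Helper10.BLD

open Finset Filter Topology Pool.Agent.Helper69.RK Pool.Agent.Helper31.EC Pool.Agent.Helper31.EC.Sp
open Pool.Agent.Helper31.EC.QS Pool.Agent.Helper13.AM
open Pool.Agent.Helper57.TA (sc wgt sc_mul_mem mem_of_sc_mul exists_div' dg_sc sc_add sc_nat_mul)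
open Pool.Agent.Helper38.NS (dp dP dL dL_le push_idf)
open Pool.Agent.Helper5.DO (PU py py_coeff py_eval py_PU py_map cf_le_cv xi_eq zs_le se_le)

noncomputable section

/-! ### identity projections -/

section

variable {T : Sp} (κ : ℝ) (h0 : 0 < κ) (h1 : 1 ≤ κ) {Z Zb : ∀ k, Setoid (T.F k).Ω} (e : ℝ) (he : 0 < e) (he1 : e ≤ 1)
  (hZ : ∀ k ω ω', (T.F k).μ ω ≠ 0 → (T.F k).μ ω' ≠ 0 → (T.F k).Z ω ω' → (Z k ω ω' ↔ Zb k ω ω'))

/-- the deep space of a zoom is a zoom of the deep space -/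
def idz : Pj (dp (T.chg Z e he) κ h0) ((dp T κ h0).chg Zb e he) where
  π := fun _ ω => ω
  law := fun k => push_idf (T.F k).μ
  hZ := by
    intro k ω ω' h2 h3
    constructor
    · rintro ⟨_, h4, h5⟩
      exact ⟨(hZ k ω ω' h2 h3 h5).mp h4, trivial, h5⟩
    · rintro ⟨h4, _, h5⟩
      exact ⟨trivial, (hZ k ω ω' h2 h3 h5).mpr h4, h5⟩
  hn := by
    intro k
    show κ * (e * (T.F k).n) = e * (κ * (T.F k).n)
    ring

theorem uQ_idz (f : QS (dp T κ h0)) : uQ (S := T.chg Z e he) κ h0 h1 ((idz κ h0 e he hZ).qs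
    (cQ (S := dp T κ h0) Zb e he he1 f)) = cQ Z e he he1 (uQ κ h0 h1 f) := by
  obtain ⟨f, rfl⟩ := mk_surj f
  rfl

theorem uL_idz (y : (dp T κ h0).L) : uL (S := T.chg Z e he) κ h0 ((idz κ h0 e he hZ).map
    (chgL (S := dp T κ h0) Zb e he y)) = chgL Z e he (uL κ h0 y) := by
  apply uL_eq
  obtain ⟨x, hx⟩ : ∃ x, x = uL κ h0 y := ⟨_, rfl⟩
  have hy : y = dL κ h0 x := by rw [hx, dL_uL]
  rw [← hx, hy]
  induction x using cl_ind with | _ A
  rfl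

end

section

variable {T : Sp} (κ : ℝ) (h0 : 0 < κ) (h1 : 1 ≤ κ) {Z : ∀ k, Setoid (T.F k).Ω} (he : 0 < 1 / κ) (he1 : 1 / κ ≤ 1)
  (hZ : ∀ k ω ω', (T.F k).μ ω ≠ 0 → (T.F k).μ ω' ≠ 0 → (T.F k).Z ω ω' → Z k ω ω')

/-- the deep space of the truncation by `1 / κ` is the space -/
def idt : Pj (dp (T.chg Z (1 / κ) he) κ h0) T where
  π := fun _ ω => ω
  law := fun k => push_idf (T.F k).μ
  hZ := by
    intro k ω ω' h2 h3
    exact ⟨fun h => h.2.2, fun h => ⟨trivial, hZ k ω ω' h2 h3 h, h⟩⟩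
  hn := by
    intro k
    show κ * (1 / κ * (T.F k).n) = (T.F k).n
    field_simp

theorem uQ_idt (f : QS T) : uQ (S := T.chg Z (1 / κ) he) κ h0 h1 ((idt κ h0 he hZ).qs f) = cQ Z (1 / κ) he he1 f := by
  obtain ⟨f, rfl⟩ := mk_surj f
  rfl

theorem uL_idt (y : T.L) : uL (S := T.chg Z (1 / κ) he) κ h0 ((idt κ h0 he hZ).map y) = chgL Z (1 / κ) he y := by
  apply uL_eq
  induction y using cl_ind with | _ A
  rfl

end

/-! ### consequences -/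

section

variable {T : Sp} {N r : ℕ} {w : Fin N → ℝ} {z : Fin N} {ρ : ℝ} {h0 : 0 < w z} {h1 : 1 ≤ w z} {c : CD T 0 N r}
  {cb : CD (dp T (w z) h0) 0 N r} (t : Trc h0 h1 c cb) (A : c.Ax w z ρ) (Ab : cb.Ax w z ρ)

include t

theorem Trc.dq (i : Fin (0 + 1)) {s : ℝ} (hs : s ≤ 1) : dg (c.q i) s = uL _ h0 (dg (cb.q i) (s / w z)) := by
  rw [t.q i, uQ_dg _ _ _ _ hs]

theorem Trc.dR (j : Fin N) {s : ℝ} (hs : s ≤ 1) : dg (c.R j) s = uL _ h0 (dg (cb.R j) (s / w z)) := by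
  rw [t.R j, uQ_dg _ _ _ _ hs]

theorem Trc.O_le : c.O ≤ uL _ h0 cb.O := by
  have hk : (1 : ℝ) / w z ≤ 1 := div_le_one_of _ h1 le_rfl
  refine sup_le ?_ ?_
  · rw [vd_le]
    intro i
    rw [t.dq i le_rfl]
    exact uL_mono _ _ ((dg_mono _ hk).trans ((dg_le_vd cb.q 1 i).trans le_sup_left))
  · rw [vd_le]
    intro j
    rw [t.dR j le_rfl]
    exact uL_mono _ _ ((dg_mono _ hk).trans ((dg_le_vd cb.R 1 j).trans le_sup_right))

include A Ab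

theorem Trc.K_eq {s : ℝ} (hs0 : 0 ≤ s) (hs : w z * s ≤ 1) : c.K s = uL _ h0 (cb.K (s / w z)) := by
  have hb : Bdd (S := T) (cb.VK (s / w z)) := un_VB _ h0 (Ab.bx.bdd (s / w z))
  have e1 : uL _ h0 (cb.K (s / w z)) = io (S := T) (cb.VK (s / w z)) := uL_io _ h0 hb
  rw [e1]
  apply le_antisymm
  · exact io_le_of_fun hb (Eventually.of_forall fun k ω ω' a b g hω => (t.VK s hs0 hs k ω ω' a b g).mpr hω)
  · exact io_le_of_fun (A.bx.bdd s) (Eventually.of_forall fun k ω ω' a b g hω =>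
      (t.VK s hs0 hs k ω ω' a b g).mp hω)

theorem Trc.xi_le (i : Fin r) : c.xi i ≤ uL _ h0 (cb.xi i) := by
  rw [xi_eq A, vd_le]
  rintro ⟨j, k⟩
  have e1 : c.cv i (j, k) = (py (c.cf i j)).coeff (k : ℕ) := by
    rw [py_coeff, dif_pos k.isLt]
    rfl
  rw [e1, t.cf i j, Polynomial.coeff_map, uQ_dg _ _ _ _ le_rfl]
  refine uL_mono _ _ ((dg_mono _ (div_le_one_of _ h1 le_rfl)).trans ?_)
  rw [xi_eq Ab]
  exact py_PU (cf_le_cv i j) k

omit A in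
theorem Trc.time (i : Fin r) {s : ℝ} (hs0 : 0 ≤ s) (hs : s ≤ 1) : h (dg (c.q 0) s) (uL _ h0 (cb.xi i)) = s := by
  rw [t.dq 0 hs, uL_h]
  have h2 := Ab.ln.time i
  have h3 : 0 ≤ s / w z := div_nonneg hs0 h0.le
  have h4 : s / w z ≤ 1 := div_le_one_of _ h1 hs
  have h5 : h (dg (cb.q 0) (s / w z)) (cb.xi i) = s / w z := by
    apply le_antisymm
    · exact (h_le_H _ _).trans (H_dg_le _ h3)
    · have h6 := h_triangle (dg (cb.q 0) 1) (dg (cb.q 0) (s / w z)) (cb.xi i)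
      have h7 : h (dg (cb.q 0) 1) (dg (cb.q 0) (s / w z) ⊔ cb.xi i) ≤ 1 - s / w z :=
        (h_anti le_sup_left).trans (h_dg_dg _ h4)
      rw [h2] at h6
      linarith
  rw [h5]
  field_simp

theorem Trc.K_xi {s : ℝ} (hs0 : 0 ≤ s) (hs : w z * s ≤ 1) (i : Fin r) :
    c.K s ≤ uL _ h0 (cb.xi i) ⊔ dg (c.q 0) s := by
  have hs1 : s ≤ 1 := by nlinarith
  have h2 : w z * (s / w z) ≤ 1 := by
    rw [mul_div_cancel₀ _ h0.ne']
    exact hs1
  rw [t.K_eq A Ab hs0 hs, t.dq 0 hs1, ← uL_sup]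
  exact uL_mono _ _ (CD.K_le_xi Ab.ln Ab.bx (div_nonneg hs0 h0.le) h2 i)

end

/-! ### closure -/

/-- two polynomials known to `ξ` which agree at a real variable are equal -/
theorem curve_unique {S : Sp} {P P' : Polynomial (QS S)} {ξ : S.L} {t : QS S} (hP : P ∈ PU ξ) (hP' : P' ∈ PU ξ)
    (ht : 1 ≤ h (dg t 1) ξ) (h0 : P.eval t = P'.eval t) : P = P' := by
  have h1 := Pool.Agent.Helper10.JET.poly_top ((PU ξ).sub_mem hP hP') one_pos le_rfl ht le_rfl (by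
    rw [Polynomial.eval_sub, h0, sub_self]
    exact (Id S 1).zero_mem)
  ext m
  have h2 := h1 m
  rw [mem_Id_one, Polynomial.coeff_sub, sub_eq_zero] at h2
  exact h2

section

variable {T : Sp} {N r : ℕ} {κ : ℝ} {h0 : 0 < κ} {h1 : 1 ≤ κ} {c : CD T 0 N r} {cb : CD (dp T κ h0) 0 N r}
  (t : Trc h0 h1 c cb)

include t

theorem trc_pull {W : Sp} (p : Pj W T) : Trc h0 h1 (c.pull p) (cb.pull (dP κ h0 p)) where
  q := fun i => by
    show p.qs (c.q i) = uQ κ h0 h1 ((dP κ h0 p).qs (cb.q i))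
    rw [dP_uQ, t.q]
  R := fun j => by
    show p.qs (c.R j) = uQ κ h0 h1 ((dP κ h0 p).qs (cb.R j))
    rw [dP_uQ, t.R]
  cf := fun i j => by
    have e1 : py ((c.pull p).cf i j) = (py (c.cf i j)).map p.qs := (py_map p.qs _).symm
    have e2 : py ((cb.pull (dP κ h0 p)).cf i j) = (py (cb.cf i j)).map (dP κ h0 p).qs := (py_map (dP κ h0 p).qs _).symm
    rw [e1, e2, t.cf]
    ext m
    rw [Polynomial.coeff_map, Polynomial.coeff_map, Polynomial.coeff_map, Polynomial.coeff_map, dP_uQ]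
  q0 := fun s hs0 hs i => by
    show p.qs (c.q0 s i) = uQ κ h0 h1 ((dP κ h0 p).qs (cb.q0 (s / κ) i))
    rw [dP_uQ, t.q0 s hs0 hs]
  γ := fun s hs0 hs j => by
    show p.qs (c.γ s j) = uQ κ h0 h1 ((dP κ h0 p).qs (cb.γ (s / κ) j))
    rw [dP_uQ, t.γ s hs0 hs]
  VK := fun s hs0 hs k ω ω' h2 h3 h4 => t.VK s hs0 hs k _ _ (p.supp k ω h2) (p.supp k ω' h3) ((p.hZ k ω ω' h2 h3).mp h4)

theorem trc_rest (E : ∀ k, (T.F k).Ω → Prop) (hE : 0 < ul (T.pr E)) :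
    Trc (T := T.rest E) h0 h1 (c.rest E hE) (cb.rest (S := dp T κ h0) E hE) where
  q := fun i => by
    show QS.rest E hE (c.q i) = uQ (S := T.rest E) κ h0 h1 (QS.rest (S := dp T κ h0) E hE (cb.q i))
    rw [uQ_rest, t.q]
  R := fun j => by
    show QS.rest E hE (c.R j) = uQ (S := T.rest E) κ h0 h1 (QS.rest (S := dp T κ h0) E hE (cb.R j))
    rw [uQ_rest, t.R]
  cf := fun i j => by
    ext m
    have e1 : (py ((c.rest E hE).cf i j)).coeff m = QS.rest E hE ((py (c.cf i j)).coeff m) :=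
      Pool.Agent.Helper5.DO.py_coeff_hom (QS.rest E hE) _ _
    have e2 : uQ (S := T.rest E) κ h0 h1 ((py ((cb.rest (S := dp T κ h0) E hE).cf i j)).coeff m) =
        uQ (S := T.rest E) κ h0 h1 (QS.rest (S := dp T κ h0) E hE ((py (cb.cf i j)).coeff m)) :=
      congrArg (uQ (S := T.rest E) κ h0 h1) (Pool.Agent.Helper5.DO.py_coeff_hom (QS.rest (S := dp T κ h0) E hE) _ _)
    rw [Polynomial.coeff_map, e1]
    refine Eq.trans ?_ e2.symm
    rw [uQ_rest, t.cf, Polynomial.coeff_map]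
  q0 := fun s hs0 hs i => by
    show QS.rest E hE (c.q0 s i) = uQ (S := T.rest E) κ h0 h1 (QS.rest (S := dp T κ h0) E hE (cb.q0 (s / κ) i))
    rw [uQ_rest, t.q0 s hs0 hs]
  γ := fun s hs0 hs j => by
    show QS.rest E hE (c.γ s j) = uQ (S := T.rest E) κ h0 h1 (QS.rest (S := dp T κ h0) E hE (cb.γ (s / κ) j))
    rw [uQ_rest, t.γ s hs0 hs]
  VK := fun s hs0 hs k ω ω' h2 h3 h4 => t.VK s hs0 hs k _ _ ((T.F k).rest_supp (E k) ω h2).1
    ((T.F k).rest_supp (E k) ω' h3).1 h4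

end

section

variable {T : Sp} {N r : ℕ} {w : Fin N → ℝ} {z : Fin N} {ρ : ℝ} {h0 : 0 < w z} {h1 : 1 ≤ w z} {c : CD T 0 N r}
  {cb : CD (dp T (w z) h0) 0 N r} (t : Trc h0 h1 c cb) (A : c.Ax w z ρ) (Ab : cb.Ax w z ρ)
  {s e : ℝ} {he : 0 < e} {he1 : e ≤ 1} (hs0 : 0 ≤ s) (hse : w z * s + e ≤ 1) {Z Zb : ∀ k, Setoid (T.F k).Ω}
  (hZ : ∀ k ω ω', (T.F k).μ ω ≠ 0 → (T.F k).μ ω' ≠ 0 → (T.F k).Z ω ω' → (Z k ω ω' ↔ Zb k ω ω'))

theorem idz_key {g X : QS T} {gb Xb : QS (dp T (w z) h0)} {a : ℝ} (ha : 0 ≤ a) (hae : a + e ≤ 1)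
    (hg : g = sc T a * X) (hgb : gb = sc (dp T (w z) h0) (a / w z) * Xb) (hgg : g = uQ (w z) h0 h1 gb) :
    cQ Z e he he1 X = uQ (S := T.chg Z e he) (w z) h0 h1 ((idz (w z) h0 e he hZ).qs
      (cQ (S := dp T (w z) h0) Zb e he he1 Xb)) := by
  rw [uQ_idz]
  apply CD.cQ_of_sc ha hae
  rw [← hg, hgg, hgb, map_mul, uQ_sc, mul_div_cancel₀ _ h0.ne']

include A Ab t in
/-- the height of the zoom is real over the deep curve -/
theorem trc_time_zoom (he : 0 < e) (he1 : e ≤ 1) (hs0 : 0 ≤ s) (hse : w z * s + e ≤ 1)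
    (hZ : ∀ k, Z k = Setoid.ker (c.VK s k)) {X : QS T} (hX : c.q 0 - c.q0 s 0 = sc T s * X) (i : Fin r) :
    1 ≤ h (dg (cQ Z e he he1 X) 1) (chgL Z e he (uL _ h0 (cb.xi i))) := by
  have hzs : w z * s ≤ 1 := by linarith
  have hse' : s + e ≤ 1 := by nlinarith
  have hs1 : s ≤ 1 := by linarith
  rw [cQ_dg _ _ _ _ _ le_rfl, mul_one, CD.zk_h A.bx.bdd he hZ, le_div_iff₀ he, one_mul]
  obtain ⟨ξ, hξ⟩ : ∃ ξ, ξ = uL _ h0 (cb.xi i) := ⟨_, rfl⟩
  have hK : c.K s ≤ ξ ⊔ dg (c.q 0) s := by rw [hξ]; exact t.K_xi A Ab hs0 hzs i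
  have ht : ∀ x : ℝ, 0 ≤ x → x ≤ 1 → h (dg (c.q 0) x) ξ = x := fun x hx hx1 => by rw [hξ]; exact t.time Ab i hx hx1
  rw [← hξ]
  have h2 : dg (sc T s * X) (s + e) ≤ dg X e := by
    have h3 := Pool.Agent.Helper10.JET.dg_sc_mul (S := T) hs0 hse' X
    rwa [add_sub_cancel_left] at h3
  have h3 : dg (c.q 0) (s + e) ≤ dg X e ⊔ c.K s := by
    have e1 : c.q 0 = sc T s * X + c.q0 s 0 := by rw [← hX]; ring
    rw [e1]
    refine (dg_add_le _ _ hse').trans (sup_le_sup h2 ?_)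
    exact (dg_mono _ hse').trans ((A.bx.litq s 0).dg_le (A.bx.bdd s) le_rfl)
  have h4 : h (dg (c.q 0) (s + e)) (ξ ⊔ c.K s) ≤ h (dg X e) (ξ ⊔ c.K s) := by
    have h5 := h_mono (B := ξ ⊔ c.K s) h3
    rwa [h_sup_right_of_le le_sup_right] at h5
  have h5 : h (dg (c.q 0) (s + e)) (ξ ⊔ dg (c.q 0) s) ≤ h (dg (c.q 0) (s + e)) (ξ ⊔ c.K s) :=
    h_anti (sup_le le_sup_left hK)
  have h6 := h_chain (dg (c.q 0) s) (dg (c.q 0) (s + e)) ξ
  have h7 : dg (c.q 0) s ⊔ dg (c.q 0) (s + e) = dg (c.q 0) (s + e) := sup_eq_right.mpr (dg_mono _ (by linarith))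
  rw [h7, ht s hs0 hs1, ht (s + e) (by linarith) hse', sup_comm (dg (c.q 0) s)] at h6
  linarith

include A Ab t hs0 hse

/-- **`Trc` UNDER ZOOMS** -/
theorem trc_zoom {c' : CD (T.chg Z e he) 0 N r} {cb' : CD ((dp T (w z) h0).chg Zb e he) 0 N r}
    (hc : ZRs c w z s e he he1 Z c') (hb : ZRs cb w z (s / w z) e he he1 Zb cb') (A' : c'.Ax w z ρ)
    (Ab' : cb'.Ax w z ρ) : Trc (T := T.chg Z e he) h0 h1 c' (cb'.pull (idz (w z) h0 e he hZ)) := by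
  have hzs : w z * s ≤ 1 := by linarith
  have hse' : s + e ≤ 1 := by nlinarith
  have hq : ∀ i, c'.q i = uQ (S := T.chg Z e he) (w z) h0 h1 ((cb'.pull (idz (w z) h0 e he hZ)).q i) := by
    intro i
    obtain ⟨X, hX1, hX2⟩ := hc.zr.q i
    obtain ⟨Xb, hb1, hb2⟩ := hb.zr.q i
    show c'.q i = uQ (S := T.chg Z e he) (w z) h0 h1 ((idz (w z) h0 e he hZ).qs (cb'.q i))
    rw [hX2, hb2]
    refine idz_key hZ hs0 hse' hX1 hb1 ?_
    rw [map_sub, t.q, t.q0 s hs0 hzs]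
  have hR : ∀ j, c'.R j = uQ (S := T.chg Z e he) (w z) h0 h1 ((cb'.pull (idz (w z) h0 e he hZ)).R j) := by
    intro j
    obtain ⟨X, hX1, hX2⟩ := hc.zr.R j
    obtain ⟨Xb, hb1, hb2⟩ := hb.zr.R j
    show c'.R j = uQ (S := T.chg Z e he) (w z) h0 h1 ((idz (w z) h0 e he hZ).qs (cb'.R j))
    rw [hX2, hb2]
    have h2 := mul_le_mul_of_nonneg_right (A.wz j) hs0
    have h3 : 0 ≤ w j * s := mul_nonneg (zero_le_one.trans (A.w1 j).le) hs0
    refine idz_key hZ (gb := cb.γ (s / w z) j) h3 (by linarith) hX1 (by rw [mul_div_assoc]; exact hb1)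
      (t.γ s hs0 hzs j)
  have hsd : ∀ s', (s + e * s') / w z = s / w z + e * (s' / w z) := fun s' => by field_simp
  have hbd : ∀ s', w z * s' ≤ 1 → w z * (s + e * s') ≤ 1 := fun s' h2 => by
    have := mul_le_mul_of_nonneg_left h2 he.le
    nlinarith
  have hbd' : ∀ s', w z * s' ≤ 1 → w z * (s / w z + e * (s' / w z)) ≤ 1 := fun s' h2 => by
    rw [← hsd, mul_div_cancel₀ _ h0.ne']
    by_cases h3 : 0 ≤ s'
    · have h4 : s' ≤ 1 := by nlinarith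
      nlinarith
    · push Not at h3
      nlinarith
  refine ⟨hq, hR, fun i j => ?_, fun s' h2 h3 i => ?_, fun s' h2 h3 j => ?_, fun s' h2 h3 k ω ω' h4 h5 h6 => ?_⟩
  · -- curves
    have Ap : (cb'.pull (idz (w z) h0 e he hZ)).Ln := Ab'.ln.pull _
    obtain ⟨X, hX1, hX2⟩ := hc.zr.q 0
    refine curve_unique (ξ := chgL Z e he (uL _ h0 (cb.xi i))) (t := c'.q 0) ?_ (fun m => ?_) ?_ ?_
    · refine py_PU ((cf_le_cv i j).trans ?_)
      rw [← xi_eq A']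
      exact (hc.zr.xi i).trans (chgL_mono _ _ _ (t.xi_le A Ab i))
    · show dg (((py ((cb'.pull (idz (w z) h0 e he hZ)).cf i j)).map (uQ (S := T.chg Z e he) (w z) h0 h1)).coeff m) 1 ≤ _
      rw [Polynomial.coeff_map, uQ_dg _ _ _ _ le_rfl, ← uL_idz (w z) h0 e he hZ]
      refine uL_mono _ _ ((dg_mono _ (div_le_one_of _ h1 le_rfl)).trans ?_)
      have h7 : dg ((py ((cb'.pull (idz (w z) h0 e he hZ)).cf i j)).coeff m) 1 ≤
          (idz (w z) h0 e he hZ).map (cb'.xi i) := by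
        have h8 : (py ((cb'.pull (idz (w z) h0 e he hZ)).cf i j)).coeff m =
            (idz (w z) h0 e he hZ).qs ((py (cb'.cf i j)).coeff m) :=
          Pool.Agent.Helper5.DO.py_coeff_hom (idz (w z) h0 e he hZ).qs _ _
        rw [h8, Pj.qs_dg]
        refine Pj.map_mono _ ?_
        rw [xi_eq Ab']
        exact py_PU (cf_le_cv i j) m
      exact h7.trans (Pj.map_mono _ (hb.zr.xi i))
    · rw [hX2]
      exact trc_time_zoom t A Ab he he1 hs0 hse hc.zr.base hX1 i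
    · rw [py_eval, ← A'.ln.curve, hR j, hq 0, Polynomial.eval_map_apply, py_eval, ← Ap.curve]
  · -- centres
    obtain ⟨X, hX1, hX2⟩ := hc.q0 s' h2 (hbd s' h3) i
    obtain ⟨Xb, hb1, hb2⟩ := hb.q0 (s' / w z) (div_nonneg h2 h0.le) (hbd' s' h3) i
    show c'.q0 s' i = uQ (S := T.chg Z e he) (w z) h0 h1 ((idz (w z) h0 e he hZ).qs (cb'.q0 (s' / w z) i))
    rw [hX2, hb2]
    refine idz_key hZ hs0 hse' hX1 hb1 ?_
    have h4 : 0 ≤ s + e * s' := add_nonneg hs0 (mul_nonneg he.le h2)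
    rw [map_sub, t.q0 s hs0 hzs, t.q0 (s + e * s') h4 (hbd s' h3), hsd]
  · obtain ⟨X, hX1, hX2⟩ := hc.γ s' h2 (hbd s' h3) j
    obtain ⟨Xb, hb1, hb2⟩ := hb.γ (s' / w z) (div_nonneg h2 h0.le) (hbd' s' h3) j
    show c'.γ s' j = uQ (S := T.chg Z e he) (w z) h0 h1 ((idz (w z) h0 e he hZ).qs (cb'.γ (s' / w z) j))
    rw [hX2, hb2]
    have h5 := mul_le_mul_of_nonneg_right (A.wz j) hs0
    have h6 : 0 ≤ w j * s := mul_nonneg (zero_le_one.trans (A.w1 j).le) hs0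
    refine idz_key hZ (gb := cb.γ (s / w z + e * (s' / w z)) j) h6 (by linarith) hX1
      (by rw [mul_div_assoc]; exact hb1) ?_
    have h4 : 0 ≤ s + e * s' := add_nonneg hs0 (mul_nonneg he.le h2)
    rw [t.γ (s + e * s') h4 (hbd s' h3), hsd]
  · have h7 := hc.zr.VK s' h2 (hbd s' h3) k ω ω' h4 h5 h6
    have h8 : (T.F k).Z ω ω' := h6.2
    have h9 : Z k ω ω' := h6.1
    have h10 := hb.zr.VK (s' / w z) (div_nonneg h2 h0.le) (hbd' s' h3) k ω ω' h4 h5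
      ⟨(hZ k ω ω' h4 h5 h8).mp h9, trivial, h8⟩
    have h4' : 0 ≤ s + e * s' := add_nonneg hs0 (mul_nonneg he.le h2)
    have h11 := t.VK (s + e * s') h4' (hbd s' h3) k ω ω' h4 h5 h8
    rw [hsd] at h11
    show _ ↔ cb'.VK (s' / w z) k ω = cb'.VK (s' / w z) k ω'
    rw [h7, h11, h10]

end

/-- **EXISTENCE**: a corner and its truncation by `1 / w z` -/
theorem trc_init {T : Sp} {N r : ℕ} {w : Fin N → ℝ} {z : Fin N} {ρ : ℝ} {h0 : 0 < w z} {h1 : 1 ≤ w z}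
    {c0 : CD T 0 N r} (A0 : c0.Ax w z ρ) {he : 0 < 1 / w z} {he1 : 1 / w z ≤ 1} {Z : ∀ k, Setoid (T.F k).Ω}
    {c : CD (T.chg Z (1 / w z) he) 0 N r} (hc : ZRs c0 w z 0 (1 / w z) he he1 Z c) (A : c.Ax w z ρ)
    (hZ : ∀ k ω ω', (T.F k).μ ω ≠ 0 → (T.F k).μ ω' ≠ 0 → (T.F k).Z ω ω' → Z k ω ω') :
    Trc (T := T.chg Z (1 / w z) he) h0 h1 c (c0.pull (idt (w z) h0 he hZ)) := by
  have hs0 : Pool.Agent.Helper57.TA.sc T 0 = 1 := Pool.Agent.Helper57.TA.sc_zero T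
  have hsd : ∀ s', 0 + 1 / w z * s' = s' / w z := fun s' => by field_simp; ring
  have hsd' : ∀ s', s' ≤ 1 → w z * (0 + 1 / w z * s') ≤ 1 := fun s' h2 => by
    rw [hsd, mul_div_cancel₀ _ h0.ne']
    exact h2
  have hbd : ∀ s', 0 ≤ s' → w z * s' ≤ 1 → s' ≤ 1 := fun s' h2 h3 => by nlinarith
  have hγ0 : ∀ j, c0.γ 0 j = c0.R j := by
    intro j
    have h2 := A0.bx.fR 0 le_rfl (by rw [mul_zero]; exact zero_le_one) j
    rw [A0.bx.F0 j, map_zero, zero_add] at h2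
    exact h2.symm
  have hq : ∀ i, c.q i = uQ (S := T.chg Z (1 / w z) he) (w z) h0 h1 ((c0.pull (idt (w z) h0 he hZ)).q i) := by
    intro i
    obtain ⟨X, hX1, hX2⟩ := hc.zr.q i
    show c.q i = uQ (S := T.chg Z (1 / w z) he) (w z) h0 h1 ((idt (w z) h0 he hZ).qs (c0.q i))
    rw [A0.bx.q00, sub_zero, hs0, one_mul] at hX1
    rw [hX2, ← hX1, uQ_idt (w z) h0 h1 he he1 hZ]
  have hR : ∀ j, c.R j = uQ (S := T.chg Z (1 / w z) he) (w z) h0 h1 ((c0.pull (idt (w z) h0 he hZ)).R j) := by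
    intro j
    obtain ⟨X, hX1, hX2⟩ := hc.zr.R j
    show c.R j = uQ (S := T.chg Z (1 / w z) he) (w z) h0 h1 ((idt (w z) h0 he hZ).qs (c0.R j))
    rw [hγ0, mul_zero, hs0, one_mul] at hX1
    rw [hX2, ← hX1, uQ_idt (w z) h0 h1 he he1 hZ]
  refine ⟨hq, hR, fun i j => ?_, fun s' h2 h3 i => ?_, fun s' h2 h3 j => ?_, fun s' h2 h3 k ω ω' h4 h5 h6 => ?_⟩
  · have Ap : (c0.pull (idt (w z) h0 he hZ)).Ln := A0.ln.pull _
    refine curve_unique (ξ := chgL Z (1 / w z) he (c0.xi i)) (t := c.q 0) ?_ (fun m => ?_) ?_ ?_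
    · refine py_PU ((cf_le_cv i j).trans ?_)
      rw [← xi_eq A]
      exact hc.zr.xi i
    · show dg (((py ((c0.pull (idt (w z) h0 he hZ)).cf i j)).map
        (uQ (S := T.chg Z (1 / w z) he) (w z) h0 h1)).coeff m) 1 ≤ _
      rw [Polynomial.coeff_map, uQ_dg _ _ _ _ le_rfl, ← uL_idt (w z) h0 he hZ]
      refine uL_mono _ _ ((dg_mono _ (div_le_one_of _ h1 le_rfl)).trans ?_)
      have h8 : (py ((c0.pull (idt (w z) h0 he hZ)).cf i j)).coeff m =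
          (idt (w z) h0 he hZ).qs ((py (c0.cf i j)).coeff m) :=
        Pool.Agent.Helper5.DO.py_coeff_hom (idt (w z) h0 he hZ).qs _ _
      rw [h8, Pj.qs_dg]
      refine Pj.map_mono _ ?_
      rw [xi_eq A0]
      exact py_PU (cf_le_cv i j) m
    · obtain ⟨X, hX1, hX2⟩ := hc.zr.q 0
      rw [A0.bx.q00, sub_zero, hs0, one_mul] at hX1
      rw [hX2, ← hX1, cQ_dg _ _ _ _ _ le_rfl, mul_one, CD.zk_h A0.bx.bdd he hc.zr.base, A0.bx.K_zero, sup_bot_eq,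
        le_div_iff₀ he, one_mul]
      have h6 := h_triangle (dg (c0.q 0) 1) (dg (c0.q 0) (1 / w z)) (c0.xi i)
      have h7 : h (dg (c0.q 0) 1) (dg (c0.q 0) (1 / w z) ⊔ c0.xi i) ≤ 1 - 1 / w z :=
        (h_anti le_sup_left).trans (h_dg_dg _ he1)
      rw [A0.ln.time i] at h6
      linarith
    · rw [py_eval, ← A.ln.curve, hR j, hq 0, Polynomial.eval_map_apply, py_eval, ← Ap.curve]
  · obtain ⟨X, hX1, hX2⟩ := hc.q0 s' h2 (hsd' s' (hbd s' h2 h3)) i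
    show c.q0 s' i = uQ (S := T.chg Z (1 / w z) he) (w z) h0 h1 ((idt (w z) h0 he hZ).qs (c0.q0 (s' / w z) i))
    rw [A0.bx.q00, sub_zero, hs0, one_mul, hsd] at hX1
    rw [hX2, ← hX1, uQ_idt (w z) h0 h1 he he1 hZ]
  · obtain ⟨X, hX1, hX2⟩ := hc.γ s' h2 (hsd' s' (hbd s' h2 h3)) j
    show c.γ s' j = uQ (S := T.chg Z (1 / w z) he) (w z) h0 h1 ((idt (w z) h0 he hZ).qs (c0.γ (s' / w z) j))
    rw [mul_zero, hs0, one_mul, hsd] at hX1
    rw [hX2, ← hX1, uQ_idt (w z) h0 h1 he he1 hZ]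
  · have h7 := hc.zr.VK s' h2 (hsd' s' (hbd s' h2 h3)) k ω ω' h4 h5 h6
    rw [hsd] at h7
    exact h7

end

end Pool.Agent.Helper10.BLD
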