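import Pool.Agent.Helper10.BLD.St1
import Pool.Agent.Helper13.AM.Axp
import Pool.Agent.Helper13.AM.Zt

/-! THE BUILDER, one weight one: the condition `Top` (top coefficients independent of the point) under extensions, events
and zooms. -/

set_option autoImplicit false

namespace Pool.Agent.Helper10.BLD

open Finset Filter Topology Pool.Agent.Helper69.RK Pool.Agent.Helper31.EC Pool.Agent.Helper31.EC.Sp
open Pool.Agent.Helper31.EC.QS Pool.Agent.Helper13.AM
open Pool.Agent.Helper57.TA (sc wgt sc_mul_mem mem_of_sc_mul exists_div' dg_sc sc_add sc_nat_mul)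
open Pool.Agent.Helper10.JET (tc)
open Pool.Agent.Helper5.DO (PU py py_coeff py_eval py_PU py_map p0 p0_coeff p0_PU p0_eval cf_le_cv f0_K time_zoom time_chg
  K_base zs_le se_le tc_lead)

noncomputable section

variable {S : Sp} {N r : ℕ}

/-! ### any dimension -/

section

variable {d : ℕ} {c : CD S d N r} {w : Fin N → ℝ} {z : Fin N} {ρ : ℝ} {s e : ℝ} {he : 0 < e} {h1 : e ≤ 1}
  {Z : ∀ k, Setoid (S.F k).Ω} {c' : CD (S.chg Z e he) d N r}

/-- box coordinates are known to the point -/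
theorem gam_O (A : c.Ax w z ρ) (hs0 : 0 ≤ s) (hs : w z * s ≤ 1) (j : Fin N) : dg (c.γ s j) 1 ≤ c.O := by
  have hKO : c.K s ≤ c.O := A.bx.K_le hs0 hs
  refine CD.gam_mem A.bx (fun j => zero_lt_one.trans (A.w1 j)) hs0 hs (Kn S 1 le_rfl c.O) (fun j => ?_) (fun i => ?_)
    (fun j n => ?_) j
  · exact (dg_le_vd c.R 1 j).trans le_sup_right
  · refine (Kn S 1 le_rfl c.O).sub_mem ((dg_le_vd c.q 1 i).trans le_sup_left) ?_
    exact ((A.bx.litq s i).dg_le (A.bx.bdd s) le_rfl).trans hKO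
  · exact ((A.bx.litF s j n).dg_le (A.bx.bdd s) le_rfl).trans hKO

/-- the point of the zoom is known to the point -/
theorem zr_O (A : c.Ax w z ρ) (hs0 : 0 ≤ s) (hse : w z * s + e ≤ 1) (hZ : c.ZR w z s e he h1 Z c') :
    c'.O ≤ chgL Z e he c.O := by
  have hw := A.w1 z
  have hzs : w z * s ≤ 1 := by linarith
  have hse' : s + e ≤ 1 := by nlinarith
  have hKO : c.K s ≤ c.O := A.bx.K_le hs0 hzs
  have key : ∀ (g X : QS S) (a : ℝ), 0 ≤ a → a + e ≤ 1 → g = sc S a * X → dg g 1 ≤ c.O →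
      dg (cQ Z e he h1 X) 1 ≤ chgL Z e he c.O := by
    intro g X a ha hae hg hk
    rw [cQ_dg _ _ _ _ _ le_rfl, mul_one]
    refine chgL_mono _ _ _ ?_
    have h3 := Pool.Agent.Helper10.JET.dg_le_sc_mul (S := S) ha (le_refl (1 : ℝ)) X
    rw [← hg] at h3
    exact (dg_mono _ (by linarith)).trans (h3.trans hk)
  refine sup_le ?_ ?_
  · rw [vd_le]
    intro i
    obtain ⟨X, hX1, hX2⟩ := hZ.q i
    rw [hX2]
    refine key _ X s hs0 hse' hX1 ?_
    refine (Kn S 1 le_rfl c.O).sub_mem ((dg_le_vd c.q 1 i).trans le_sup_left) ?_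
    exact ((A.bx.litq s i).dg_le (A.bx.bdd s) le_rfl).trans hKO
  · rw [vd_le]
    intro j
    obtain ⟨Y, hY1, hY2⟩ := hZ.R j
    rw [hY2]
    refine key _ Y (w j * s) (mul_nonneg (zero_le_one.trans (A.w1 j).le) hs0) ?_ hY1 (gam_O A hs0 hzs j)
    have := mul_le_mul_of_nonneg_right (A.wz j) hs0
    linarith

theorem top_pull {T : Sp} (p : Pj T S) {l : Fin N} (h : Top c w l) : Top (c.pull p) w l := by
  intro K hK
  have h1 := h K hK
  rw [CD.pull_O]
  have e : (univ.sup fun i => dg ((py ((c.pull p).cf i l)).coeff K) 1) =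
      p.map (univ.sup fun i => dg ((py (c.cf i l)).coeff K) 1) := by
    rw [Pj.map_finsup]
    refine Finset.sup_congr rfl fun i _ => ?_
    rw [← p.qs_dg, ← Polynomial.coeff_map, py_map]
    rfl
  rw [e]
  have h2 := p.I_map (univ.sup fun i => dg ((py (c.cf i l)).coeff K) 1) c.O ⊥
  rw [p.map_bot] at h2
  rw [h2]
  exact h1

theorem top_rest (E : ∀ k, (S.F k).Ω → Prop) (hE : 0 < ul (S.pr E)) {l : Fin N} (h : Top c w l) :
    Top (c.rest E hE) w l := by
  intro K hK
  have h1 := I_rest_zero E hE (h K hK)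
  rw [CD.rest_O]
  have e : (univ.sup fun i => dg ((py ((c.rest E hE).cf i l)).coeff K) 1) =
      restL E hE (univ.sup fun i => dg ((py (c.cf i l)).coeff K) 1) := by
    rw [Sp.restL_finsup]
    refine Finset.sup_congr rfl fun i _ => ?_
    rw [← QS.rest_dg, ← Polynomial.coeff_map, py_map]
    rfl
  rw [e]
  exact h1

end

/-! ### one unit direction: zooms -/

section

variable {c : CD S 0 N r} {w : Fin N → ℝ} {z l : Fin N} {K : ℕ} {ρ : ℝ} (A : c.Ax w z ρ)
  (wl : w l = K) (low : ∀ j, w l ≤ w j) (cut : ∀ i m, K < m → (py (c.cf i l)).coeff m = 0)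
  {s e : ℝ} (he : 0 < e) (hs0 : 0 ≤ s) (hse : w z * s + e ≤ 1)

omit S in
theorem cut_of_wd {S : Sp} {d : ℕ} {c : CD S d N r} (hW : Wd c w) (wl : w l = K) (i : Fin r) (m : ℕ) (hm : K < m) :
    (py (c.cf i l)).coeff m = 0 := by
  rw [py_coeff]
  split_ifs with h
  · refine hW i l ⟨m, h⟩ ?_
    rw [wl]
    exact_mod_cast hm
  · rfl

include A he hs0 hse wl low cut

/-- the curve in the box -/
theorem zoom_poly' {X : QS S} (hX : c.q 0 - c.q0 s 0 = sc S s * X) (i : Fin r) :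
    ∃ Q : Polynomial (QS S), Q ∈ PU (c.xi i ⊔ c.K s) ∧ (∀ m, K < m → Q.coeff m = 0) ∧
      (∀ m, m ≤ K → sc S (((K : ℝ) - m) * s) * Q.coeff m =
        tc (py (c.cf i l)) (c.q0 s 0) m - (p0 K (c.F s l)).coeff m) ∧
      sc S (K * s) * Q.eval X = c.γ s l := by
  classical
  have hzs := zs_le A he hs0 hse
  have hse' := se_le A he hs0 hse
  have hKs : (K : ℝ) * s ≤ 1 := by
    rw [← wl]
    exact (mul_le_mul_of_nonneg_right (A.wz l) hs0).trans hzs
  obtain ⟨P, hP⟩ : ∃ P, P = py (c.cf i l) := ⟨_, rfl⟩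
  obtain ⟨p, hp⟩ : ∃ p, p = p0 K (c.F s l) := ⟨_, rfl⟩
  obtain ⟨B, hB⟩ : ∃ B, B = c.xi i ⊔ c.K s := ⟨_, rfl⟩
  have hPd : P.natDegree ≤ K := by
    rw [Polynomial.natDegree_le_iff_coeff_eq_zero, hP]
    exact fun m hm => cut i m hm
  have hPk : P ∈ PU B := by
    rw [hP, hB]
    exact py_PU (((cf_le_cv i l).trans le_sup_right).trans le_sup_left)
  have hpk : p ∈ PU B := by
    rw [hp, hB]
    exact p0_PU fun n => (f0_K A s n l).trans le_sup_right
  have hpc : ∀ m, K ≤ m → p.coeff m = 0 := by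
    intro m hm
    rw [hp, p0_coeff, if_neg (by omega)]
  have hq0 : dg (c.q0 s 0) 1 ≤ B := by
    rw [hB]
    exact ((A.bx.litq s 0).dg_le (A.bx.bdd s) le_rfl).trans le_sup_right
  have hfr : c.R l = (p0 K (c.F s l)).eval (c.q 0 - c.q0 s 0) + c.γ s l := by
    have h1 := A.bx.fR s hs0 hzs l
    rw [p0_eval wl low (A.bx.deg s l)] at h1
    exact h1
  have hR : P.eval (c.q0 s 0 + sc S s * X) = p.eval (sc S s * X) + c.γ s l := by
    rw [← hX, add_sub_cancel, hP, hp, py_eval, ← A.ln.curve]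
    exact hfr
  -- the scaled frame
  obtain ⟨G, hG⟩ : ∃ G : Polynomial (QS S), G = ∑ m ∈ range K, Polynomial.monomial m (sc S (m * s) * p.coeff m) :=
    ⟨_, rfl⟩
  have hGc : ∀ m, G.coeff m = sc S (m * s) * p.coeff m := by
    intro m
    rw [hG, Polynomial.finsetSum_coeff]
    simp only [Polynomial.coeff_monomial]
    rw [Finset.sum_ite_eq' (range K) m]
    split_ifs with hm
    · rfl
    · rw [hpc m (by rw [mem_range] at hm; omega), mul_zero]
  have hGk : G ∈ PU B := by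
    intro m
    rw [hGc]
    refine (Kn S 1 le_rfl B).mul_mem ?_ (hpk m)
    show dg (sc S (m * s)) 1 ≤ B
    rw [dg_sc]
    exact bot_le
  have hpe : ∀ u : QS S, p.eval u = ∑ m ∈ range (K + 1), p.coeff m * u ^ m := by
    intro u
    exact Polynomial.eval_eq_sum_range' (n := K + 1) (by
      have h5 : p.natDegree ≤ K := by
        rw [Polynomial.natDegree_le_iff_coeff_eq_zero]
        exact fun m hm => hpc m hm.le
      omega) u
  have hGe : G.eval X = p.eval (sc S s * X) := by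
    rw [hpe, Finset.sum_range_succ, hpc K le_rfl, zero_mul, add_zero, hG, Polynomial.eval_finsetSum]
    refine Finset.sum_congr rfl fun m _ => ?_
    rw [Polynomial.eval_monomial, sc_nat_mul hs0, mul_pow]
    ring
  have hj : ∀ m : ℕ, tc P (c.q0 s 0) m - p.coeff m ∈ Id S (K * s - m * s) := by
    intro m
    have h3 := Pool.Agent.Helper10.JET.near_sc hPk hGk hq0 hs0 he (by linarith)
      (by rw [hB]; exact time_zoom A he hs0 hse hX i) hKs (by
        rw [hR, hGe, add_sub_cancel_left, ← wl]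
        exact A.bx.fγ s hs0 hzs l) m
    rw [hGc, ← mul_sub] at h3
    exact mem_of_sc_mul (by positivity) hKs h3
  have hc : ∀ m : ℕ, ∃ g : QS S, (m ≤ K → tc P (c.q0 s 0) m - p.coeff m = sc S (((K : ℝ) - m) * s) * g) ∧
      dg g 1 ≤ B := by
    intro m
    by_cases hm : m ≤ K
    · have hm' : (m : ℝ) ≤ K := by exact_mod_cast hm
      have e1 : (K : ℝ) * s - m * s = ((K : ℝ) - m) * s := by ring
      have h3 := hj m
      rw [e1] at h3
      obtain ⟨g, hg1, hg2⟩ := exists_div' (mul_nonneg (by linarith) hs0) (by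
        have : (0 : ℝ) ≤ m * s := by positivity
        linarith) h3
      refine ⟨g, fun _ => hg1, hg2.trans ?_⟩
      exact (Kn S 1 le_rfl B).sub_mem (Pool.Agent.Helper10.JET.tc_known hPk hq0 m) (hpk m)
    · exact ⟨0, fun h => absurd h hm, (Kn S 1 le_rfl B).zero_mem⟩
  choose g hg1 hg2 using hc
  obtain ⟨Q, hQ⟩ : ∃ Q : Polynomial (QS S), Q = ∑ m ∈ range (K + 1), Polynomial.monomial m (g m) := ⟨_, rfl⟩
  have hQc : ∀ m, Q.coeff m = if m ∈ range (K + 1) then g m else 0 := by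
    intro m
    rw [hQ, Polynomial.finsetSum_coeff]
    simp only [Polynomial.coeff_monomial]
    exact Finset.sum_ite_eq' (range (K + 1)) m g
  have hPe : P.eval (c.q0 s 0 + sc S s * X) = ∑ m ∈ range (K + 1), tc P (c.q0 s 0) m * (sc S s * X) ^ m :=
    Pool.Agent.Helper10.JET.eval_tc P _ _ hPd
  rw [← hB, ← hP, ← hp]
  refine ⟨Q, fun m => ?_, fun m hm => ?_, fun m hm => ?_, ?_⟩
  · rw [hQc]
    split_ifs
    · exact hg2 m
    · exact (Kn S 1 le_rfl B).zero_mem
  · rw [hQc, if_neg (by rw [mem_range]; omega)]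
  · rw [hQc, if_pos (by rw [mem_range]; omega)]
    exact (hg1 m hm).symm
  · have e2 : Q.eval X = ∑ m ∈ range (K + 1), g m * X ^ m := by
      rw [hQ, Polynomial.eval_finsetSum]
      exact Finset.sum_congr rfl fun m _ => Polynomial.eval_monomial
    have e3 : c.γ s l = P.eval (c.q0 s 0 + sc S s * X) - p.eval (sc S s * X) := by rw [hR]; ring
    rw [e3, e2, hPe, hpe, Finset.mul_sum, ← Finset.sum_sub_distrib]
    refine Finset.sum_congr rfl fun m hm => ?_
    have hm1 : m ≤ K := by rw [mem_range] at hm; omega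
    have hm' : (m : ℝ) ≤ K := by exact_mod_cast hm1
    have e4 : sc S ((K : ℝ) * s) = sc S (m * s) * sc S (((K : ℝ) - m) * s) := by
      rw [← sc_add (by positivity) (mul_nonneg (by linarith) hs0)]
      congr 1
      ring
    have e5 := hg1 m hm1
    rw [← sub_mul, e5, e4, mul_pow, sc_nat_mul hs0]
    ring

variable (h1 : e ≤ 1)

omit low cut in
/-- **the zoomed curve is the transformed curve** -/
theorem zoom_cf' {c' : CD (S.chg (fun k => Setoid.ker (c.VK s k)) e he) 0 N r}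
    (hZ : c.ZR w z s e he h1 (fun k => Setoid.ker (c.VK s k)) c') (A' : c'.Ax w z ρ) {X : QS S}
    (hX : c.q 0 - c.q0 s 0 = sc S s * X)
    (hq : c'.q 0 = cQ (fun k => Setoid.ker (c.VK s k)) e he h1 X) (i : Fin r) {Q : Polynomial (QS S)}
    (hQk : Q ∈ PU (c.xi i ⊔ c.K s)) (hQe : sc S (K * s) * Q.eval X = c.γ s l) :
    py (c'.cf i l) = Q.map (cQ (fun k => Setoid.ker (c.VK s k)) e he h1) := by
  obtain ⟨Y, hY1, hY2⟩ := hZ.R l
  have hzs := zs_le A he hs0 hse
  have hKs : (K : ℝ) * s ≤ 1 - e := by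
    rw [← wl]
    have := mul_le_mul_of_nonneg_right (A.wz l) hs0
    linarith
  have hKs0 : (0 : ℝ) ≤ K * s := by positivity
  have h2 : Y - Q.eval X ∈ Id S e := by
    have h3 : sc S (K * s) * (Y - Q.eval X) ∈ Id S 1 := by
      rw [mul_sub, hQe, ← wl, ← hY1, sub_self]
      exact (Id S 1).zero_mem
    exact Id_anti (by linarith) (mem_of_sc_mul hKs0 le_rfl h3)
  have h4 : (py (c'.cf i l) - Q.map (cQ (fun k => Setoid.ker (c.VK s k)) e he h1)).eval (c'.q 0) ∈
      Id (S.chg (fun k => Setoid.ker (c.VK s k)) e he) 1 := by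
    rw [Polynomial.eval_sub, py_eval, ← A'.ln.curve, hY2, hq, Polynomial.eval_map_apply, mem_Id_one, sub_eq_zero,
      cQ_eq]
    exact h2
  have h5 : py (c'.cf i l) - Q.map (cQ (fun k => Setoid.ker (c.VK s k)) e he h1) ∈
      PU (chgL (fun k => Setoid.ker (c.VK s k)) e he (c.xi i)) := by
    refine (PU _).sub_mem ?_ fun m => ?_
    · refine py_PU (((cf_le_cv i l).trans ?_).trans (hZ.xi i))
      exact le_sup_right
    · rw [Polynomial.coeff_map, cQ_dg _ _ _ _ _ le_rfl, mul_one]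
      refine (chgL_mono _ _ _ ((dg_mono _ h1).trans (hQk m))).trans ?_
      rw [chgL_sup, K_base he (A.bx.bdd s), sup_bot_eq]
  have h6 := Pool.Agent.Helper10.JET.poly_top h5 one_pos le_rfl (x := c'.q 0) (by
    rw [hq]
    exact time_chg A he h1 hs0 hse hX i) le_rfl h4
  ext m
  have h7 := h6 m
  rw [mem_Id_one, Polynomial.coeff_sub, sub_eq_zero] at h7
  exact h7

/-- the top coefficient of the zoom -/
theorem zoom_top {Z : ∀ k, Setoid (S.F k).Ω} {c' : CD (S.chg Z e he) 0 N r} (hZ : c.ZR w z s e he h1 Z c')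
    (A' : c'.Ax w z ρ) (i : Fin r) : (py (c'.cf i l)).coeff K = cQ Z e he h1 ((py (c.cf i l)).coeff K) := by
  obtain rfl : Z = fun k => Setoid.ker (c.VK s k) := funext hZ.base
  obtain ⟨X, hX1, hX2⟩ := hZ.q 0
  obtain ⟨Q, h2, h3, h4, h5⟩ := zoom_poly' A wl low cut he hs0 hse hX1 i
  have h5 := zoom_cf' A wl he hs0 hse h1 hZ A' hX1 hX2 i h2 h5
  have h6 := h4 K le_rfl
  rw [sub_self, zero_mul, Pool.Agent.Helper57.TA.sc_zero, one_mul, p0_coeff, if_neg (lt_irrefl K), sub_zero,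
    tc_lead (cut i)] at h6
  rw [h5, Polynomial.coeff_map, h6]

end

theorem top_zoom {c : CD S 0 N r} {w : Fin N → ℝ} {z l : Fin N} {ρ : ℝ} (A : c.Ax w z ρ) (hW : Wd c w)
    (low : ∀ j, w l ≤ w j) {s e : ℝ} (he : 0 < e) (h1 : e ≤ 1) (hs0 : 0 ≤ s) (hse : w z * s + e ≤ 1)
    {Z : ∀ k, Setoid (S.F k).Ω} {c' : CD (S.chg Z e he) 0 N r} (hZ : c.ZR w z s e he h1 Z c') (A' : c'.Ax w z ρ)
    (h : Top c w l) : Top c' w l := by
  intro K hK
  have hzs : w z * s ≤ 1 := by linarith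
  have h2 := h K hK
  have e1 : ∀ i, (py (c'.cf i l)).coeff K = cQ Z e he h1 ((py (c.cf i l)).coeff K) :=
    zoom_top A hK low (cut_of_wd hW hK) he hs0 hse h1 hZ A'
  have hKO : c.K s ≤ c.O := A.bx.K_le hs0 hzs
  have h3 : I (chgL Z e he (univ.sup fun i => dg ((py (c.cf i l)).coeff K) 1)) (chgL Z e he c.O) ⊥ = 0 := by
    have h4 := CD.zk_I A.bx.bdd he hZ.base (univ.sup fun i => dg ((py (c.cf i l)).coeff K) 1) c.O ⊥
    rw [bot_sup_eq] at h4
    have h5 : I (univ.sup fun i => dg ((py (c.cf i l)).coeff K) 1) c.O (c.K s) = 0 := by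
      have h6 := h_anti (A := univ.sup fun i => dg ((py (c.cf i l)).coeff K) 1) hKO
      have h7 := h_anti (A := univ.sup fun i => dg ((py (c.cf i l)).coeff K) 1) (bot_le (a := c.K s))
      rw [I_eq, sup_bot_eq] at h2
      rw [I_eq, sup_eq_left.mpr hKO]
      linarith
    rw [h5, zero_div] at h4
    exact h4
  refine I_zero_mono h3 (Finset.sup_le fun i _ => ?_) ((zr_O A hs0 hse hZ).trans le_sup_left)
  rw [e1, cQ_dg _ _ _ _ _ le_rfl, mul_one]
  refine le_trans (chgL_mono _ _ _ ((dg_mono _ h1).trans ?_)) le_sup_left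
  exact Finset.le_sup (f := fun i => dg ((py (c.cf i l)).coeff K) 1) (mem_univ i)

end

end Pool.Agent.Helper10.BLD
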